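import Pool.Agent.Q255.L2.StmQ

/-!
# Rules for the quantifier `Alm`
-/

set_option autoImplicit false

namespace Pool.Agent.Q255.L2

open Finset

open Classical in
/-- the exceptional set -/
noncomputable def Exc (Q : ℕ → ℕ → Prop) (J P : ℕ) : Finset ℕ := (Icc 1 P).filter fun m => Odd m ∧ ¬ Q J m

theorem mem_exc {Q : ℕ → ℕ → Prop} {J P m : ℕ} :
    m ∈ Exc Q J P ↔ m ∈ Icc 1 P ∧ Odd m ∧ ¬ Q J m := by
  classical
  unfold Exc
  rw [mem_filter]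

theorem alm_iff {Q : ℕ → ℕ → Prop} : Alm Q ↔ ∀ B : ℝ, ∃ (K : ℕ) (C : ℝ), ∀ J P : ℕ, 2 ^ (K * J) ≤ P →
    ((Exc Q J P).card : ℝ) ≤ C * P * (2 : ℝ) ^ (-(B * J)) := Iff.rfl

theorem Alm.mono {Q Q' : ℕ → ℕ → Prop} (h : Alm Q) (h' : ∀ J m, Q J m → Q' J m) : Alm Q' := by
  classical
  rw [alm_iff] at h ⊢
  intro B
  obtain ⟨K, C, hC⟩ := h B
  refine ⟨K, C, fun J P hP => le_trans ?_ (hC J P hP)⟩
  have hs : Exc Q' J P ⊆ Exc Q J P := by
    intro m hm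
    rw [mem_exc] at hm ⊢
    exact ⟨hm.1, hm.2.1, fun hQ => hm.2.2 (h' J m hQ)⟩
  exact_mod_cast card_le_card hs

theorem Alm.and {Q₁ Q₂ : ℕ → ℕ → Prop} (h₁ : Alm Q₁) (h₂ : Alm Q₂) : Alm fun J m => Q₁ J m ∧ Q₂ J m := by
  classical
  rw [alm_iff] at h₁ h₂ ⊢
  intro B
  obtain ⟨K₁, C₁, hC₁⟩ := h₁ B
  obtain ⟨K₂, C₂, hC₂⟩ := h₂ B
  refine ⟨max K₁ K₂, C₁ + C₂, fun J P hP => ?_⟩
  have e1 : 2 ^ (K₁ * J) ≤ P :=
    (Nat.pow_le_pow_right (by norm_num) (Nat.mul_le_mul_right J (le_max_left K₁ K₂))).trans hP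
  have e2 : 2 ^ (K₂ * J) ≤ P :=
    (Nat.pow_le_pow_right (by norm_num) (Nat.mul_le_mul_right J (le_max_right K₁ K₂))).trans hP
  have hs : Exc (fun J m => Q₁ J m ∧ Q₂ J m) J P ⊆ Exc Q₁ J P ∪ Exc Q₂ J P := by
    intro m hm
    rw [mem_union, mem_exc, mem_exc]
    rw [mem_exc] at hm
    by_cases hq : Q₁ J m
    · exact Or.inr ⟨hm.1, hm.2.1, fun h => hm.2.2 ⟨hq, h⟩⟩
    · exact Or.inl ⟨hm.1, hm.2.1, hq⟩
  have h3 : ((Exc (fun J m => Q₁ J m ∧ Q₂ J m) J P).card : ℝ) ≤ (Exc Q₁ J P).card + (Exc Q₂ J P).card := by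
    exact_mod_cast (card_le_card hs).trans (card_union_le _ _)
  calc ((Exc (fun J m => Q₁ J m ∧ Q₂ J m) J P).card : ℝ) ≤ (Exc Q₁ J P).card + (Exc Q₂ J P).card := h3
    _ ≤ C₁ * P * (2 : ℝ) ^ (-(B * J)) + C₂ * P * (2 : ℝ) ^ (-(B * J)) := add_le_add (hC₁ J P e1) (hC₂ J P e2)
    _ = (C₁ + C₂) * P * (2 : ℝ) ^ (-(B * J)) := by ring

/-- another scale -/
theorem Alm.scale {Q : ℕ → ℕ → Prop} (h : Alm Q) {k : ℕ} (hk : 1 ≤ k) (r : ℕ) : Alm fun J m => Q (k * J + r) m := by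
  classical
  rw [alm_iff] at h ⊢
  intro B
  obtain ⟨K, C, hC⟩ := h (max B 0)
  refine ⟨K * (k + r), max C 1, fun J P hP => ?_⟩
  rcases Nat.eq_zero_or_pos J with rfl | hJ
  · have h1 : ((Exc (fun J m => Q (k * J + r) m) 0 P).card : ℝ) ≤ P := by
      have h2 : (Exc (fun J m => Q (k * J + r) m) 0 P).card ≤ (Icc 1 P).card := card_le_card fun m hm => (mem_exc.1 hm).1
      rw [Nat.card_Icc, Nat.add_sub_cancel] at h2
      exact_mod_cast h2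
    rw [Nat.cast_zero, mul_zero, neg_zero, Real.rpow_zero, mul_one]
    calc ((Exc (fun J m => Q (k * J + r) m) 0 P).card : ℝ) ≤ 1 * P := by rw [one_mul]; exact h1
      _ ≤ max C 1 * P := mul_le_mul_of_nonneg_right (le_max_right _ _) (Nat.cast_nonneg P)
  · have e1 : k * J + r ≤ (k + r) * J := by
      rw [add_mul]
      exact Nat.add_le_add_left (Nat.le_mul_of_pos_right r hJ) _
    have e2 : 2 ^ (K * (k * J + r)) ≤ P := by
      refine (Nat.pow_le_pow_right (by norm_num) ?_).trans hP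
      rw [mul_assoc]
      exact Nat.mul_le_mul_left K e1
    have e3 : (J : ℝ) ≤ ((k * J + r : ℕ) : ℝ) := by
      have : J ≤ k * J + r := (Nat.le_mul_of_pos_left J hk).trans (Nat.le_add_right _ _)
      exact_mod_cast this
    have e4 : (2 : ℝ) ^ (-(max B 0 * ((k * J + r : ℕ) : ℝ))) ≤ (2 : ℝ) ^ (-(B * J)) := by
      refine Real.rpow_le_rpow_of_exponent_le (by norm_num) ?_
      have h1 : B * J ≤ max B 0 * J := mul_le_mul_of_nonneg_right (le_max_left _ _) (Nat.cast_nonneg J)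
      have h2 : max B 0 * J ≤ max B 0 * ((k * J + r : ℕ) : ℝ) := mul_le_mul_of_nonneg_left e3 (le_max_right _ _)
      linarith
    have e5 : ((Exc (fun J m => Q (k * J + r) m) J P).card : ℝ) ≤
        C * P * (2 : ℝ) ^ (-(max B 0 * ((k * J + r : ℕ) : ℝ))) := hC (k * J + r) P e2
    calc ((Exc (fun J m => Q (k * J + r) m) J P).card : ℝ) ≤
        C * P * (2 : ℝ) ^ (-(max B 0 * ((k * J + r : ℕ) : ℝ))) := e5
      _ ≤ max C 1 * P * (2 : ℝ) ^ (-(max B 0 * ((k * J + r : ℕ) : ℝ))) :=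
          mul_le_mul_of_nonneg_right (mul_le_mul_of_nonneg_right (le_max_left _ _) (Nat.cast_nonneg P))
            (Real.rpow_nonneg (by norm_num) _)
      _ ≤ max C 1 * P * (2 : ℝ) ^ (-(B * J)) :=
          mul_le_mul_of_nonneg_left e4 (mul_nonneg (le_trans zero_le_one (le_max_right _ _)) (Nat.cast_nonneg P))

theorem Alm.of_forall {Q : ℕ → ℕ → Prop} (h : ∀ J m, Odd m → Q J m) : Alm Q := by
  classical
  rw [alm_iff]
  intro B
  refine ⟨0, 0, fun J P _ => ?_⟩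
  have : Exc Q J P = ∅ := eq_empty_of_forall_notMem fun m hm => (mem_exc.1 hm).2.2 (h J m (mem_exc.1 hm).2.1)
  rw [this, card_empty, Nat.cast_zero, zero_mul, zero_mul]

end Pool.Agent.Q255.L2
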