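import Pool.Agent.Q255.L2.StmG

/-!
# Vinogradov mean values of random twists: statements
-/

set_option autoImplicit false

namespace Pool.Agent.Q255.L2

open Filter Topology MeasureTheory Finset
open Pool.Agent.Q255.IC Pool.Agent.Q255.IR Pool.Agent.Q255.EP
open scoped ENNReal

/-! ## Square products and linear equations -/

open Classical in
/-- the values of `n` cancel in pairs, with the signs `e` -/
def Bal {ι : Type} [Fintype ι] (e : ι → ℤ) (n : ι → ℕ) : Prop :=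
  ∀ v : ℕ, ∑ i ∈ univ.filter (fun i => n i = v), e i = 0

/-- The number of tuples of positive integers of product at most `Y`.

Proof: by induction on the cardinality (transfer to `Fin k`, split off the last coordinate `a ≤ Y`):
`∑_{a ≤ Y} C (Y/a)^(1+η) ≤ C Y^(1+η) ∑ a^(-1-η)`. -/
def S_TUP : Prop :=
  ∀ (M : Type) [Fintype M] [DecidableEq M] (η : ℝ), 0 < η → ∃ C : ℝ, 0 < C ∧ ∀ (Y : ℝ) (B : ℕ), 1 ≤ Y →
    (((Fintype.piFinset fun _ : M => Icc 1 B).filter fun a => ((∏ j, a j : ℕ) : ℝ) ≤ Y).card : ℝ) ≤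
      C * Y ^ (1 + η)

/-- The square products.

Proof: `n_i = r_i² s_i`, `s_i` squarefree (`Nat.sq_mul_squarefree`); `∏ s_i` is a square; for a set `S` of indices let `u S` be
the product of the primes `p` dividing `∏ s_i` with `{i | p ∣ s_i} = S`.  The exponent of `p` in `∏ s_i` is the cardinality of
this set, so it is even (and positive). -/
def S_PAR : Prop :=
  ∀ (ι : Type) [Fintype ι] [DecidableEq ι] (n : ι → ℕ), (∀ i, 1 ≤ n i) → IsSquare (∏ i, n i) →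
    ∃ (r : ι → ℕ) (u : Finset ι → ℕ), (∀ i, 1 ≤ r i) ∧ (∀ S, 1 ≤ u S) ∧
      (∀ i, n i = r i ^ 2 * ∏ S ∈ univ.filter (fun S : Finset ι => i ∈ S), u S) ∧
      ∀ S, u S ≠ 1 → S.Nonempty ∧ Even S.card

open Classical in
/-- The number of the solutions of one or two linear equations in separate variables with a square as the product of
all the variables which are not trivial.

Proof.  `k = card ι₁ + card ι₂`, `ι = ι₁ ⊕ ι₂`, `n : ι → ℕ` the tuple, `δ > 0` small (`k 2^k δ ≤ 1/4`).  `S_PAR` gives `(r, u)`,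
and `n` is determined by `(r, u)`; `∏_S u_S^|S| ∏ r_i² = ∏ n_i ≤ N^k`, so `∏_S u_S ∏ r_i ≤ N^(k/2)`.
(A) There is `S₀` with `u_{S₀} ≥ N^δ` and `∑_{i ∈ S₀ ∩ ι₁} e_i n_i ≠ 0` (or the same with `ι₂`).  Fix `S₀`, all the `r_i` and all the
`u_S`, `S ≠ S₀`: `n_i = c_i u_{S₀}` for `i ∈ S₀`, `n_i = c_i` otherwise, and the equation for `ι₁` is
`u_{S₀} ∑_{S₀ ∩ ι₁} e_i c_i + ∑_{ι₁ ∖ S₀} e_i c_i = 0` with the first coefficient `≠ 0`: at most one `u_{S₀}`.  The fixed numbers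
satisfy `∏_{S ≠ S₀} u_S ∏ r_i ≤ N^(k/2 - δ)`: by `S_TUP` at most `C N^((k/2-δ)(1+η)) ≤ C N^(k/2 - δ/2)` choices.
(B) There is `S₀` with `u_{S₀} ≥ N^δ` and `|S₀| ≥ 4`.  Then `∏_S u_S ∏ r_i ≤ N^(k/2-δ)`, the same bound.
(C) Otherwise every `S` with `u_S ≥ N^δ` has two elements `i, j`, both in `ι₁` or both in `ι₂` (else the sum in (A) is
`± n_i ≠ 0`), and `n_i = n_j`, `e_i = - e_j`.  Let `B` be the set of the indices with `s_i = n_i/r_i² ≥ N^(2^k δ)`: as `s_i` is a product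
of at most `2^k` of the `u_S`, every `i ∈ B` has such a partner `j`, `j ∈ B`.  For a fixed set `B`, `m = k - |B|`:
the number of the possible values `n_i`, `i ∉ B`, is at most `∑_{s ≤ N^δ'} √(N/s) ≤ N^(1/2+δ')`, `δ' = 2^k δ`.  (C1) some value is taken
three times in `B`: the number of the tuples on `B` is at most `C N^((|B|-1)/2)`, in total at most `C N^(k/2 - 1/2 + k δ')`.  (C2) every
value in `B` is taken exactly twice (in `B`), by partners: these cancel in both equations; if `m = 0` the tuple is `Bal` for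
both, excluded; if `m ≥ 1`, one of the equations restricted to the complement of `B` is nonempty and determines one of its
variables by the others: at most `C N^(|B|/2) N^((m-1)(1/2+δ'))` tuples. -/
def S_CLG : Prop :=
  ∀ (ι₁ ι₂ : Type) [Fintype ι₁] [Fintype ι₂] (e₁ : ι₁ → ℤ) (e₂ : ι₂ → ℤ),
    (∀ i, e₁ i = 1 ∨ e₁ i = -1) → (∀ i, e₂ i = 1 ∨ e₂ i = -1) → ∃ c C : ℝ, 0 < c ∧ 0 < C ∧ ∀ N : ℕ, 1 ≤ N →
      ((((Fintype.piFinset fun _ : ι₁ => Icc 1 N) ×ˢ (Fintype.piFinset fun _ : ι₂ => Icc 1 N)).filter fun t =>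
        ∑ i, e₁ i * (t.1 i : ℤ) = 0 ∧ ∑ i, e₂ i * (t.2 i : ℤ) = 0 ∧ IsSquare ((∏ i, t.1 i) * ∏ i, t.2 i) ∧
          ¬ (Bal e₁ t.1 ∧ Bal e₂ t.2)).card : ℝ) ≤
        C * (N : ℝ) ^ (((Fintype.card ι₁ : ℝ) + Fintype.card ι₂) / 2 - c)

/-! ## Vinogradov's system -/

open Classical in
/-- the solutions `(x, y)` of `∑ x_i^j = ∑ y_i^j`, `1 ≤ j ≤ k`, with `s` pairs of variables in `I` -/
noncomputable def Sol (s k : ℕ) (I : Finset ℕ) : Finset ((Fin s → ℕ) × (Fin s → ℕ)) :=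
  ((Fintype.piFinset fun _ : Fin s => I) ×ˢ (Fintype.piFinset fun _ : Fin s => I)).filter fun t =>
    ∀ j ∈ Icc 1 k, ∑ i, t.1 i ^ j = ∑ i, t.2 i ^ j

/-- the mean value of the twist by `χ`: the sum of `χ(x_1) … χ(y_s)` over the solutions -/
noncomputable def JJ (χ : ℕ → ℝ) (s k : ℕ) (I : Finset ℕ) : ℝ :=
  ∑ t ∈ Sol s k I, (∏ i, χ (t.1 i)) * ∏ i, χ (t.2 i)

open Classical in
/-- the number of the solutions with the product `n` of all the variables, `n` not a square -/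
noncomputable def AA (s k : ℕ) (I : Finset ℕ) (n : ℕ) : ℝ :=
  if IsSquare n then 0 else (((Sol s k I).filter fun t => (∏ i, t.1 i) * ∏ i, t.2 i = n).card : ℝ)

/-- The twisted mean value is a linear form in the values of `χ` with small coefficients, up to the diagonal term.

Proof (given `S_CLG`; note that `k ≥ 1`, so the solutions satisfy `∑ x_i = ∑ y_i`).  (a) `nn X (AA …)` is at most the number of
the pairs `(t, t')` of solutions whose products are not squares and belong to the same squarefree number, so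
the product of all `4 s` variables is a square; `Bal` for `t` (signs `1` for `x`, `-1` for `y`) would imply that its product
is a square, hence `S_CLG` with `ι₁ = ι₂ = Fin s ⊕ Fin s` bounds it by `C N^(2s-c)`.  (b) The products are at most `N^(2s)`.
(c) `JJ χ = ∑_{square product} 1 + ∑_n AA n χ n` (`χ` of a product of values is the product; `χ(r²) = 1`).  The solutions
with a square product: those with `Bal` are the `(x, y)` with `y` a permutation of `x` (they are all solutions), their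
number is `s! (b-a)^s + O((b-a)^(s-1))` (injective `x`: exactly `s!` permutations; the others `x`: at most `s² (b-a)^(s-1)`,
with at most `s!` values `y` each); the others: `S_CLG` with `ι₂ = Empty`. -/
def S_VMA : Prop :=
  ∀ s k : ℕ, 1 ≤ s → 1 ≤ k → ∃ c C : ℝ, 0 < c ∧ 0 ≤ C ∧ ∀ N a b : ℕ, 1 ≤ N → a ≤ b → b ≤ N →
    (∀ X, nn X (AA s k (Ioc a b)) ≤ C * (N : ℝ) ^ (2 * (s : ℝ) - c)) ∧
    (∀ n, N ^ (2 * s) < n → AA s k (Ioc a b) n = 0) ∧
    ∀ (χ : ℕ → ℝ) (X : ℕ), Sgn χ → N ^ (2 * s) ≤ X →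
      |JJ χ s k (Ioc a b) - (s.factorial : ℝ) * ((b : ℝ) - a) ^ s| ≤
        C * (N : ℝ) ^ ((s : ℝ) - c) + |∑ n ∈ Icc 1 X, AA s k (Ioc a b) n * χ n|

/-- All mean values of the twists, almost surely, for all laws of information `x^o(1)`.

Proof.  Fix `s, k ≥ 1`.  `S_ENG2` with `δ = 0` and `W_J = {AA s k (Ioc a b) : 1 ≤ N, a ≤ b ≤ N, N^(2s) ≤ 2^J}`, at most `8^J · 8`
functions.  For `N`, `a`, `b` let `2^(J-1) < N^(2s) ≤ 2^J` (`J = 0` if `N = 1`); with `ε' = c/(8s)`: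
`|∑ AA cm| ≤ C 2^(ε' J) √(C N^(2s-c)) ≤ C' N^(s - c/4)`.  `cm ω` is `Sgn`. -/
def S_VMB : Prop :=
  ∀ (ν : Measure (ℕ → Bool)) [IsProbabilityMeasure ν],
    (∀ ε : ℝ, 0 < ε → ∀ᶠ x : ℕ in atTop, D ν (Nat.primeCounting x) ≤ (x : ℝ) ^ ε) →
    ∀ᵐ ω ∂ν, ∀ s k : ℕ, 1 ≤ s → 1 ≤ k → ∃ c C : ℝ, 0 < c ∧ ∀ N a b : ℕ, 1 ≤ N → a ≤ b → b ≤ N →
      |JJ (cm ω) s k (Ioc a b) - (s.factorial : ℝ) * ((b : ℝ) - a) ^ s| ≤ C * (N : ℝ) ^ ((s : ℝ) - c)

/-- For every `δ` in `(0,1)` there is a law with `D(x) ≤ C x^δ` for which the mean values are larger on average.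

Proof.  `β = (1+δ)/2`, the law of `S_LAWE` (proved: Pool/Agent/Q96/EP/Lawe.lean) with `d_k = p_k^(β-1)`: `D ν π(x) ≤ ∑_{p ≤ x} p^(2β-2) ≤
C x^δ`.  `E cm(m) = ∏ p^(β-1)` over the primes with an odd exponent in `m`, so it is at least `m^(β-1)`, and every solution
contributes at least `N^(2s(β-1))` to the expectation of `JJ` (`cm` is completely multiplicative).  The number of the
solutions is at least `N^(2s)/∏_{j ≤ k} (s N^j) = s^(-k) N^(2s - k(k+1)/2)` (Cauchy-Schwarz: the vector `(∑ x_i^j)_j` takes at most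
`∏ (s N^j)` values). -/
def S_VMC : Prop :=
  ∀ δ : ℝ, 0 < δ → δ < 1 → ∃ ν : Measure (ℕ → Bool), IsProbabilityMeasure ν ∧
    (∃ C : ℝ, ∀ x : ℕ, 1 ≤ x → D ν (Nat.primeCounting x) ≤ C * (x : ℝ) ^ δ) ∧
    ∀ s k : ℕ, 1 ≤ s → 1 ≤ k → ∃ c : ℝ, 0 < c ∧ ∀ N : ℕ, 1 ≤ N →
      c * (N : ℝ) ^ ((s : ℝ) + s * δ - k * (k + 1) / 2) ≤ ∫ ω, JJ (cm ω) s k (Icc 1 N) ∂ν

/-! ## Short intervals -/

/-- Square root cancellation in all short intervals, for all polynomial phases and given weights.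

Proof.  For every `d` (natural number): `S_ENG2` with `δ = 0` and `W_J` = the functions `a(m) cos (2πF(m))`, `a(m) sin (2πF(m))`
for `M < m ≤ R`, `0` otherwise, where `M ≤ R ≤ 2^J` and `F = ∑_{k ≤ d} (b_k/Q) X^k`, `0 ≤ b_k < Q = 2^(J(d+1))` integers, as in `S_POLY`
(`Pool.Agent.Q13.EP.POLY`).  `nn X w ≤ ∑_s (#{r | r² s ∈ (M, R]})² ≤ C (R - M) (1 + J)`: `#{r | r² s ∈ (M, R]} ≤ √((R-M)/s) + 1`, and
it is nonzero for at most `R - M` numbers `s ≤ 2^J`.  Rounding the coefficients changes the sum by at most `2π(d+1)`,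
as in `S_POLY` (if `M < R`, `R - M ≥ 1`, so this is absorbed). -/
def S_SHP : Prop :=
  ∀ (ν : Measure (ℕ → Bool)) [IsProbabilityMeasure ν],
    (∀ ε : ℝ, 0 < ε → ∀ᶠ x : ℕ in atTop, D ν (Nat.primeCounting x) ≤ (x : ℝ) ^ ε) →
    ∀ a : ℕ → ℝ, (∀ n, |a n| ≤ 1) →
      ∀ᵐ ω ∂ν, ∀ (d : ℕ) (ε : ℝ), 0 < ε → ∃ C : ℝ, ∀ (M R : ℕ) (F : Polynomial ℝ), M ≤ R → 1 ≤ R →
        F.natDegree ≤ d →
          ‖∑ n ∈ Finset.Ioc M R, ((a n * cm ω n : ℝ) : ℂ) * ee (F.eval (n : ℝ))‖ ≤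
            C * (R : ℝ) ^ ε * √((R : ℝ) - M)

end Pool.Agent.Q255.L2
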