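import Pool.Agent.Q255.L2.StmK
import Pool.Agent.Q255.L2.StmV

/-!
# Sup norms and Gaussian moments of random twists of Maass expansions, coefficients bounded on average: statements

The coefficients `a(n)` of the expansions are only supposed to satisfy the moment bounds `∑_{n ≤ N} a(n)^8 ≤ (N T)^{o(1)} N`
and `∑_{s ≤ S} ∑_{r ≤ R} a(r² s)^4 ≤ (R S T)^{o(1)} R S` (`s` squarefree), which are known for Hecke-Maass forms.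
-/

set_option autoImplicit false

namespace Pool.Agent.Q255.L2

open Filter Topology MeasureTheory Finset
open Pool.Agent.Q255.IC Pool.Agent.Q255.IR Pool.Agent.Q255.EP
open Pool.Agent.Q152.QT (gm)
open scoped ENNReal

/-! ## The Bessel function near the transition -/

/-- The sharp uniform bound `exp (πT) K_{iT}(u)² ≤ C/√(T (1 + |T - u|))`.

Proof (given `S_KODE`, `S_KINT`, `S_KBB`; see `Pool.Agent.Q241.L2.Kbb`).  `K = KB T u`, `P = u KB1 T u`, `Q = T² - u²`, `D = u d/du`: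
`D K = P`, `D P = - Q K`, `D Q = - 2 u²`; `E = P² + Q K²` is decreasing in `u`, `0 ≤ E ≤ E₀ = πT/sinh (πT) ≤ C T exp (-πT)`.
(1) `u ≤ T/2`: `Q K² ≤ E₀`.  (2) For `T/2 ≤ u`, `Q ≥ T^(4/3)` let `φ = Q^(1/4) K`, `ψ = Q^(-1/4) P + (1/4) Q^(-5/4) (D Q) K`,
`F = φ² + ψ²`.  Then `D φ = √Q ψ` and `D ψ = - √Q φ + √Q θ φ` with `θ = - u² Q^(-2) - (5/4) u⁴ Q^(-3)`, so `|D F| ≤ √Q |θ| F`, i.e.
`|dF/du| ≤ (u Q^(-3/2) + (5/4) u³ Q^(-5/2)) F`, and the integral of the factor over `[T/2, u]` is at most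
`Q(u)^(-1/2) + (5/12) T² Q(u)^(-3/2) ≤ 2`.  `F(T/2) ≤ C E₀/T` (from `E ≤ E₀`), so `F(u) ≤ C E₀/T`, `K² ≤ C E₀/(T √Q)`.
(3) Let `Q(u₁) = T^(4/3)`, `0 < T - u₁ ≤ T^(1/3)`: `K(u₁)² ≤ C (E₀/T) T^(-2/3)`, `P(u₁)² ≤ C (E₀/T) T^(2/3)` (from `F(u₁)`), so
`E(u₁) ≤ C (E₀/T) T^(2/3)`; for `u₁ ≤ u ≤ T`: `P² ≤ E ≤ E(u₁)` and `|K(u) - K(u₁)| ≤ √E(u₁) log (u/u₁) ≤ C √(E₀/T) T^(1/3) T^(-2/3)`.
So `K² ≤ C (E₀/T) T^(-2/3)` on `[u₁, T]`, and for `u ≥ T` too since `K²` is decreasing there.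
(4) `u > T`: `(u² - T²) K(u)² ≤ ∫_T^u 2 v K² dv ≤ E(T) ≤ C (E₀/T) T^(2/3)`.  (Small `T`, say `T ≤ 8`: `S_KBB`.) -/
def S_KW : Prop :=
  ∃ C : ℝ, 0 ≤ C ∧ ∀ T u : ℝ, 1 ≤ T → 0 < u →
    Real.exp (Real.pi * T) * KB T u ^ 2 ≤ C / √(T * (1 + |T - u|))

/-! ## The norm -/

/-- the moment bounds up to `M`, with the constant `B` -/
def M8 (B M : ℝ) (a : ℕ → ℝ) : Prop :=
  (∀ N : ℕ, (N : ℝ) ≤ M → ∑ n ∈ Icc 1 N, a n ^ 8 ≤ B * N) ∧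
  ∀ R S : ℕ, (R : ℝ) ^ 2 * S ≤ M →
    ∑ s ∈ (Icc 1 S).filter Squarefree, ∑ r ∈ Icc 1 R, a (r ^ 2 * s) ^ 4 ≤ B * (R * S)

/-- The norm of the weights, with a saving close to the transition.

Proof.  Classes `Δ_j = {n ≤ m T | 2^j ≤ 1 + |T - 2πny| < 2^(j+1)}`; only `C (1 + log T)` of them are nonempty, and only those
with `2^j ≤ H` matter; `Δ_j` lies in two intervals of length `h/(2πy)`, `h = 2^(j+1)`.  `w² ≤ a²/√(T 2^j)` on `Δ_j`.  For squarefree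
`s` let `R_s = {r | r² s ∈ Δ_j}`, `|R_s| ≤ C (√(h/s) + 1)`; `(∑_{r ∈ R_s} |a(r² s)|)² ≤ |R_s| ∑_{r ∈ R_s} a(r² s)²`.
(a) `s ≥ h`: `|R_s| ≤ C`, and `∑_{n ∈ Δ_j} a(n)² ≤ |Δ_j|^(3/4) (∑_{n ≤ mT} a(n)^8)^(1/4) ≤ C h^(3/4) (B T)^(1/4)`.
(b) `S ≤ s < 2S ≤ 2h`: `(∑_{r ∈ R_s} |a|)² ≤ |R_s|^(3/2) (∑_{r ≤ √(mT/S)} a(r² s)⁴)^(1/2)`, and by Cauchy-Schwarz over `s` the sum is at most
`C (h/S)^(3/4) S^(1/2) (B √(mT/S) 2S)^(1/2) = C B^(1/2) h^(3/4) T^(1/4)` (`R = ⌊√(mT/S)⌋`, `R² 2S ≤ 4 m T`).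
So `∑_s (∑_{r ∈ R_s} |w|)² ≤ C B (1 + log T) h^(3/4) T^(1/4)/√(T h) = C B (1 + log T) (h/T)^(1/4)`.  Cauchy-Schwarz over the classes. -/
def S_KN2 : Prop :=
  ∀ y₀ y₁ m : ℝ, 0 < y₀ → y₀ ≤ y₁ → 1 ≤ m → ∃ C : ℝ, 0 ≤ C ∧
    ∀ (T y H B : ℝ) (X : ℕ) (a w : ℕ → ℝ), 1 ≤ T → y₀ ≤ y → y ≤ y₁ → 1 ≤ H → 1 ≤ B → M8 B (4 * m * T) a →
      (∀ n, |w n| ≤ |a n| / (T * (1 + |T - 2 * Real.pi * n * y|)) ^ (1 / 4 : ℝ)) →
      (∀ n : ℕ, m * T < n → w n = 0) → (∀ n : ℕ, H < 1 + |T - 2 * Real.pi * n * y| → w n = 0) →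
        nn X w ≤ C * B * (1 + Real.log T) ^ 3 * (H / T) ^ (1 / 4 : ℝ)

/-! ## The sup norm -/

/-- the moment bounds for all members of a family -/
def Coef {ι : Type} (T : ι → ℝ) (a : ι → ℕ → ℝ) : Prop :=
  (∀ ε : ℝ, 0 < ε → ∃ C : ℝ, ∀ (i : ι) (N : ℕ), 1 ≤ N →
    ∑ n ∈ Icc 1 N, a i n ^ 8 ≤ C * ((N : ℝ) * T i) ^ ε * N) ∧
  ∀ ε : ℝ, 0 < ε → ∃ C : ℝ, ∀ (i : ι) (R S : ℕ), 1 ≤ R → 1 ≤ S →
    ∑ s ∈ (Icc 1 S).filter Squarefree, ∑ r ∈ Icc 1 R, a i (r ^ 2 * s) ^ 4 ≤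
      C * ((R : ℝ) * S * T i) ^ ε * (R * S)

/-- polynomially many members -/
def Fam {ι : Type} (T : ι → ℝ) (A : ℝ) : Prop :=
  (∀ i, 1 ≤ T i) ∧ ∀ X : ℝ, 1 ≤ X → {i | T i ≤ X}.Finite ∧ ({i | T i ≤ X}.ncard : ℝ) ≤ A * X ^ A

/-- information `x^o(1)` -/
def Sml (ν : Measure (ℕ → Bool)) : Prop :=
  ∀ ε : ℝ, 0 < ε → ∀ᶠ x : ℕ in atTop, D ν (Nat.primeCounting x) ≤ (x : ℝ) ^ ε

/-- The sup norm of the twists is `O(T^ε)` on compact sets (given `S_ENG2`, `S_KODE`, `S_KBB`, `S_KW`, `S_KN2`).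

Proof: as `Pool.Agent.Q65.L2.sn` (Pool/Agent/Q65/L2/SN.lean), but with the weights cut off at `n ≤ m T`, `m = ⌈1/y₀⌉` (the terms
beyond: `Pool.Agent.Q255.L2.far` and `one_member` in Pool/Agent/Q255/L2/SNT.lean, with `θ = 1`; by the first moment bound
`|a_i(n)| ≤ (C (n T)^ε n)^(1/8)`), `2^(J-1) < m T_i ≤ 2^J`, and `S_KN2` with `B = C T^ε`, `H = 1 + T + 2π m T y₁` for the norm
(from `S_KW`: `exp (πT/2) |KB T u| ≤ C/(T (1 + |T - u|))^(1/4)`). -/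
def S_SN2 : Prop :=
  ∀ (ν : Measure (ℕ → Bool)) [IsProbabilityMeasure ν], Sml ν →
    ∀ (ι : Type) (T : ι → ℝ) (a : ι → ℕ → ℝ) (A : ℝ), Fam T A → Coef T a →
      ∀ᵐ ω ∂ν, ∀ y₀ y₁ : ℝ, 0 < y₀ → y₀ ≤ y₁ → ∀ ε : ℝ, 0 < ε → ∃ C : ℝ, ∀ (i : ι) (x y : ℝ),
        y₀ ≤ y → y ≤ y₁ → |phc (cm ω) (T i) (a i) x y| ≤ C * T i ^ ε ∧ |phs (cm ω) (T i) (a i) x y| ≤ C * T i ^ ε

/-! ## Square products with weights -/

/-- Hölder's inequality and hypercontractivity.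

Proof: the left side is the mean over fair signs of `∏_i F_i`, `F_i = ∑_{n ≤ X} w_i(n) f(n)` (the mean of `∏ f(t_i)` is `1` if
`∏ t_i` is a square and `0` otherwise; words of length `π(X)`).  Hölder: at most `∏ (mean of F_i^(2q))^(1/(2q))` for `2q ≥ card ι`.
`F_i = ∑_s v_i(s) f(s)` over squarefree `s`, `v_i(s) = ∑_r w_i(r² s)`; hypercontractivity (`Pool.Agent.Q163.HC.bonami` in
Pool/Agent/Q163/HC/Bon.lean, or `Pool.Agent.Q237.L2.Bon` for words): the mean of `F_i^(2q)` is at most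
`(∑_s (2q)^(number of primes of s) v_i(s)²)^q ≤ (C X^ε' nn X w_i)^q` (`Pool.Agent.Q163.HC.pow_omega`).  `card ι = 0`: `1 ≤ C X^ε`. -/
def S_HY : Prop :=
  ∀ (ι : Type) [Fintype ι] [DecidableEq ι] (ε : ℝ), 0 < ε → ∃ C : ℝ, 0 ≤ C ∧
    ∀ (X : ℕ) (w : ι → ℕ → ℝ), 1 ≤ X → (∀ i n, 0 ≤ w i n) → (∀ i n, X < n → w i n = 0) →
      ∑ t ∈ (Fintype.piFinset fun _ : ι => Icc 1 X).filter (fun t => IsSquare (∏ i, t i)), ∏ i, w i (t i) ≤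
        C * (X : ℝ) ^ ε * ∏ i, √(nn X (w i))

open Classical in
/-- The number of nontrivial solutions, inhomogeneous equations.

Proof: as `S_CLG` (`Pool.Agent.Q150.L2.clg` in Pool/Agent/Q150/L2/CLG.lean), which is the case `h₁ = h₂ = 0`.  In (A) the equation
is `u_{S₀} ∑ e_i c_i + ∑ e_i c_i = h`, at most one `u_{S₀}` again; (B) is the same; in (C) the partners are the same (the case
distinction in (A) concerns `∑_{i ∈ S₀ ∩ ι₁} e_i n_i ≠ 0` and does not involve `h`); in (C2) the sum of the `e_i n_i` over `B ∩ ι₁` is `0`, so if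
`m = 0` then `h₁ = h₂ = 0` and the tuple is `Bal` for both, excluded; if `m ≥ 1` one variable is determined by the others. -/
def S_CLH : Prop :=
  ∀ (ι₁ ι₂ : Type) [Fintype ι₁] [Fintype ι₂] [DecidableEq ι₁] [DecidableEq ι₂] (e₁ : ι₁ → ℤ) (e₂ : ι₂ → ℤ),
    (∀ i, e₁ i = 1 ∨ e₁ i = -1) → (∀ i, e₂ i = 1 ∨ e₂ i = -1) → ∃ c C : ℝ, 0 < c ∧ 0 < C ∧
      ∀ (N : ℕ) (h₁ h₂ : ℤ), 1 ≤ N →
        ((((Fintype.piFinset fun _ : ι₁ => Icc 1 N) ×ˢ (Fintype.piFinset fun _ : ι₂ => Icc 1 N)).filter fun t =>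
          ∑ i, e₁ i * (t.1 i : ℤ) = h₁ ∧ ∑ i, e₂ i * (t.2 i : ℤ) = h₂ ∧
            IsSquare ((∏ i, t.1 i) * ∏ i, t.2 i) ∧ ¬ (Bal e₁ t.1 ∧ Bal e₂ t.2)).card : ℝ) ≤
          C * (N : ℝ) ^ (((Fintype.card ι₁ : ℝ) + Fintype.card ι₂) / 2 - c)

open Classical in
/-- The same with weights `p + q`, `p ≤ σ b`, `q` small in norm (given `S_HY`, `S_CLH`).

Proof.  `k = card ι₁ + card ι₂`, `S` the set of the solutions.  `∏ (p_i + q_i) ≤ ∏ p_i + ∑_j q_j ∏_{i ≠ j} (p_i + q_i)`.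
(a) `∑_S ∏ p_i ≤ σ^k ∑_{S, all t_i ≤ N} ∏ b_i ≤ σ^k (number of these)^(1/2) (∑_{square product} ∏ b_i²)^(1/2)`; `S_CLH` and `S_HY` (for
`b_i²` cut off at `N`): at most `σ^k (C N^(k/2 - c))^(1/2) (C N^ε (B √N)^k)^(1/2) ≤ C σ^k B^k N^(k/2 - c/2 + ε/2)`.
(b) `∑_{square product} q_j ∏_{i ≠ j} (p_i + q_i) ≤ C X^ε ρ (2Λ)^(k-1)` by `S_HY`; `√nn` satisfies the triangle inequality. -/
def S_WC : Prop :=
  ∀ (ι₁ ι₂ : Type) [Fintype ι₁] [Fintype ι₂] [DecidableEq ι₁] [DecidableEq ι₂] (e₁ : ι₁ → ℤ) (e₂ : ι₂ → ℤ),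
    (∀ i, e₁ i = 1 ∨ e₁ i = -1) → (∀ i, e₂ i = 1 ∨ e₂ i = -1) → 1 ≤ Fintype.card ι₁ + Fintype.card ι₂ →
      ∃ c : ℝ, 0 < c ∧ ∀ ε : ℝ, 0 < ε → ∃ C : ℝ, 0 ≤ C ∧
        ∀ (N X : ℕ) (h₁ h₂ : ℤ) (p₁ q₁ b₁ : ι₁ → ℕ → ℝ) (p₂ q₂ b₂ : ι₂ → ℕ → ℝ) (σ B ρ Λ : ℝ),
          1 ≤ N → N ≤ X → 0 ≤ σ → 1 ≤ B → 0 ≤ ρ → ρ ≤ Λ →
          (∀ i n, 0 ≤ p₁ i n ∧ 0 ≤ q₁ i n ∧ 0 ≤ b₁ i n ∧ p₁ i n ≤ σ * b₁ i n) →
          (∀ i n, 0 ≤ p₂ i n ∧ 0 ≤ q₂ i n ∧ 0 ≤ b₂ i n ∧ p₂ i n ≤ σ * b₂ i n) →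
          (∀ i n, N < n → p₁ i n = 0 ∧ b₁ i n = 0) → (∀ i n, N < n → p₂ i n = 0 ∧ b₂ i n = 0) →
          (∀ i n, X < n → q₁ i n = 0) → (∀ i n, X < n → q₂ i n = 0) →
          (∀ i, nn N (fun n => b₁ i n ^ 2) ≤ B ^ 2 * N ∧ nn X (q₁ i) ≤ ρ ^ 2 ∧ nn X (p₁ i) ≤ Λ ^ 2) →
          (∀ i, nn N (fun n => b₂ i n ^ 2) ≤ B ^ 2 * N ∧ nn X (q₂ i) ≤ ρ ^ 2 ∧ nn X (p₂ i) ≤ Λ ^ 2) →
          ∑ t ∈ ((Fintype.piFinset fun _ : ι₁ => Icc 1 X) ×ˢ (Fintype.piFinset fun _ : ι₂ => Icc 1 X)).filter (fun t =>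
            ∑ i, e₁ i * (t.1 i : ℤ) = h₁ ∧ ∑ i, e₂ i * (t.2 i : ℤ) = h₂ ∧
              IsSquare ((∏ i, t.1 i) * ∏ i, t.2 i) ∧ ¬ (Bal e₁ t.1 ∧ Bal e₂ t.2)),
            (∏ i, (p₁ i (t.1 i) + q₁ i (t.1 i))) * ∏ i, (p₂ i (t.2 i) + q₂ i (t.2 i)) ≤
            C * (X : ℝ) ^ ε * (σ ^ (Fintype.card ι₁ + Fintype.card ι₂) * B ^ (Fintype.card ι₁ + Fintype.card ι₂) *
              (N : ℝ) ^ (((Fintype.card ι₁ : ℝ) + Fintype.card ι₂) / 2 - c) +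
                ρ * Λ ^ (Fintype.card ι₁ + Fintype.card ι₂ - 1))

/-! ## Products of trigonometric polynomials -/

/-- the nonzero integers of absolute value at most `X` -/
noncomputable def Bx (X : ℕ) : Finset ℤ := (Icc (-(X : ℤ)) X).erase 0

open Classical in
/-- balanced tuples of integers: `v` and `-v` occur equally often -/
def BalZ {k : ℕ} (m : Fin k → ℤ) : Prop :=
  ∀ v : ℤ, (univ.filter fun i => m i = v).card = (univ.filter fun i => m i = -v).card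

open Classical in
/-- the balanced tuples -/
noncomputable def DB (k X : ℕ) (β : Fin k → ℤ → ℂ) : ℂ :=
  ∑ m ∈ (Fintype.piFinset fun _ : Fin k => Bx X).filter BalZ, ∏ j, β j (m j)

/-- the tuples of sum `h` with the values of `χ` -/
noncomputable def TS (χ : ℕ → ℝ) (k X : ℕ) (h : ℤ) (β : Fin k → ℤ → ℂ) : ℂ :=
  ∑ m ∈ (Fintype.piFinset fun _ : Fin k => Bx X).filter (fun m => ∑ j, m j = h),
    ∏ j, (β j (m j) * (χ (m j).natAbs : ℂ))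

open Classical in
/-- the weight of the unbalanced tuples of sum `h` and square product -/
noncomputable def U1 (k X : ℕ) (h : ℤ) (β : Fin k → ℤ → ℂ) : ℝ :=
  ∑ m ∈ (Fintype.piFinset fun _ : Fin k => Bx X).filter (fun m =>
    ∑ j, m j = h ∧ IsSquare (∏ j, (m j).natAbs) ∧ ¬ BalZ m), ∏ j, ‖β j (m j)‖

open Classical in
/-- the weight of the pairs of tuples of sum `h`, not both balanced, with a square as the product of all the entries -/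
noncomputable def U2 (k X : ℕ) (h : ℤ) (β : Fin k → ℤ → ℂ) : ℝ :=
  ∑ m ∈ ((Fintype.piFinset fun _ : Fin k => Bx X) ×ˢ (Fintype.piFinset fun _ : Fin k => Bx X)).filter (fun m =>
    ∑ j, m.1 j = h ∧ ∑ j, m.2 j = h ∧ IsSquare ((∏ j, (m.1 j).natAbs) * ∏ j, (m.2 j).natAbs) ∧
      ¬ (BalZ m.1 ∧ BalZ m.2)), (∏ j, ‖β j (m.1 j)‖) * ∏ j, ‖β j (m.2 j)‖

/-- Moments of the twists, almost surely, from the two counts (given `S_ENG2`).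

Proof.  For a tuple of members of `𝓑_J` and `|h| ≤ 2^J` let `co(n)` be the sum of `∏ β_j(m_j)` over the `m` of sum `h` with
`∏ |m_j| = n`, `n` not a square.  `TS (cm ω) = ∑_n co(n) cm ω n + ∑_{square product}`, and the last sum is `DB` (if `h = 0`; balanced
tuples have sum `0` and square product) up to `U1`.  `nn (2^(kJ)) (Re co) ≤ U2` (two tuples with the same squarefree part `≠ 1` of
the product are not balanced and all entries together have a square as product), the same for `Im`.  `S_ENG2` with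
`δ = 0`, `W_{J'}` = the functions `Re co`, `Im co` for `J' = k J` (`∅` for other `J'`), `exp (A' (J+1))` of them:
`|∑ co cm| ≤ C 2^(ε k J) √U2`, `ε = c/(4k)`. -/
def S_GMA : Prop :=
  ∀ (ν : Measure (ℕ → Bool)) [IsProbabilityMeasure ν], Sml ν → ∀ (k : ℕ), 1 ≤ k →
    ∀ (𝓑 : ℕ → Finset (ℤ → ℂ)) (A c C₀ : ℝ), 0 < c →
      (∀ J, ∀ β ∈ 𝓑 J, ∀ m : ℤ, m ∉ Bx (2 ^ J) → β m = 0) → (∀ J, ((𝓑 J).card : ℝ) ≤ Real.exp (A * ((J : ℝ) + 1))) →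
      (∀ J, ∀ β : Fin k → ℤ → ℂ, (∀ j, β j ∈ 𝓑 J) → ∀ h : ℤ,
        U1 k (2 ^ J) h β ≤ C₀ * (2 : ℝ) ^ (-(c * J)) ∧ U2 k (2 ^ J) h β ≤ C₀ * (2 : ℝ) ^ (-(c * J))) →
      ∀ᵐ ω ∂ν, ∃ C : ℝ, ∀ J, ∀ β : Fin k → ℤ → ℂ, (∀ j, β j ∈ 𝓑 J) → ∀ h : ℤ, |h| ≤ 2 ^ J →
        ‖TS (cm ω) k (2 ^ J) h β - if h = 0 then DB k (2 ^ J) β else 0‖ ≤ C * (2 : ℝ) ^ (-(c / 4 * J))

/-- The balanced tuples: Gaussian moments.

Proof (`B = Bx X`, `V = ∑_{m ∈ B} ‖β m‖²`, `β(-m)` the conjugate of `β(m)`, `D_k` the sum over the balanced tuples, `A_k` the same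
sum with `‖β‖`).  For a balanced `m : Fin (k+2) → B` let `μ(m) ≥ 1` be the number of the `j ≥ 1` with `m_j = - m_0`.  Summing over such `j` and
the other entries (balanced iff `m` is): `∑_m μ(m) ∏ β(m_j) = (k+1) V D_k`, since `β(v) β(-v) = ‖β v‖²`.  So `A_{k+2} ≤ (k+1) V A_k`,
`A_k ≤ k^k V^(k/2)`, `A_1 = 0`, and `|D_{k+2} - (k+1) V D_k| ≤ ∑_{μ(m) ≥ 2} (k+1) ∏ ‖β‖`; if `μ(m) ≥ 2` then, `m` being balanced, `m_0 = v` occurs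
twice as well, so this is at most `(k+1) k³ · ∑_v ‖β v‖⁴ · A_{k-2} ≤ C σ V · V^((k-2)/2)` (two indices with `-v`, one more with `v`).
Induction: `gm (k+2) = (k+1) gm k`, `gm 0 = 1`, `gm 1 = 0`. -/
def S_BAL : Prop :=
  ∀ k : ℕ, ∃ C : ℝ, 0 ≤ C ∧ ∀ (X : ℕ) (β : ℤ → ℂ) (σ : ℝ), (∀ m, β (-m) = (starRingEnd ℂ) (β m)) → (∀ m, ‖β m‖ ^ 2 ≤ σ) →
    ‖DB (k + 2) X (fun _ => β) - (((gm (k + 2) : ℝ) * √(∑ m ∈ Bx X, ‖β m‖ ^ 2) ^ (k + 2) : ℝ) : ℂ)‖ ≤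
      C * σ * √(∑ m ∈ Bx X, ‖β m‖ ^ 2) ^ k

/-- From Fourier coefficients to intervals.

Proof: Parseval: the partial sums `φ_H` of the Fourier series of the indicator function `φ` of `[α, β]` satisfy
`‖φ - φ_H‖₂² ≤ C/H` (the coefficients are at most `1/(π |h|)`), so `|∫ (φ - φ_H) g| ≤ G √(C/H)`; `∫ φ_H g = ∑_{|h| ≤ H} φ̂(h) ∫ g e(hx)`. -/
def S_FOU : Prop :=
  ∃ C : ℝ, 0 ≤ C ∧ ∀ (g : ℝ → ℝ) (G δ α β : ℝ) (H : ℕ), Continuous g → (∀ x, |g x| ≤ G) → 1 ≤ H → 0 ≤ α → α ≤ β → β ≤ 1 →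
    (∀ h : ℤ, h ≠ 0 → |h| ≤ H → ‖∫ x in (0 : ℝ)..1, (g x : ℂ) * ee (-(h * x))‖ ≤ δ) →
      |(∫ x in α..β, g x) - (β - α) * ∫ x in (0 : ℝ)..1, g x| ≤ C * (G / √(H : ℝ) + δ * (1 + Real.log H))

/-! ## Maass expansions -/

/-- the coefficients of the expansion as a trigonometric polynomial, cut off at `|m| ≤ M` -/
noncomputable def bt (T : ℝ) (a : ℕ → ℝ) (M : ℝ) (b : Bool) (y : ℝ) (m : ℤ) : ℂ :=
  if m ≠ 0 ∧ (m.natAbs : ℝ) ≤ M then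
    ((Real.exp (Real.pi * T / 2) * √y * a m.natAbs * KB T (2 * Real.pi * m.natAbs * y) / 2 : ℝ) : ℂ) *
      (if b then 1 else -Complex.I * (m.sign : ℂ)) else 0

/-- `phc` or `phs` -/
noncomputable def ph (b : Bool) (f : ℕ → ℝ) (T : ℝ) (a : ℕ → ℝ) (x y : ℝ) : ℝ := if b then phc f T a x y else phs f T a x y

/-- The counts for Maass expansions (given `S_WC`, `S_KW`, `S_KN2`).

Proof.  Let `T_j = T (i_j)`, `2^J ≤ 2^q T_j`, `T_j ≤ 2^J`, `N = X = 2^J ⌈M⌉`.  `‖bt (±n)‖ ≤ C |a(n)|/(T (1 + |T - 2πny|))^(1/4)` (`S_KW`), `0` for `n > M T`.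
`p` = the part with `1 + |T - 2πny| > T^(1-η)`: `p ≤ σ |a|`, `σ = C T^(-1/2+η/4)`; `q` = the other part: `nn q ≤ C T^ε T^(-η/4)` (`S_KN2`,
`H = T^(1-η)`), `nn p ≤ C T^ε` (`H = C T`); `b = |a|` cut off at `M T`: `nn N b² ≤ C T^ε N` (for `S ≤ s < 2S`:
`(∑_{r ≤ √(N/S)} a(r² s)²)² ≤ √(N/S) ∑_r a(r² s)⁴`, and the second moment bound).  The sums over integer tuples are sums over the
`2^k` (or `4^k`) patterns of signs of sums over tuples of natural numbers, `BalZ` becomes `Bal`.  `S_WC`: at most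
`C T^ε' (T^(kη/4) T^(-c) + T^(-η/8))` for `U1`, with `2k` in place of `k` for `U2`; `η = 2c/k`. -/
def S_GMB : Prop :=
  ∀ (ι : Type) (T : ι → ℝ) (a : ι → ℕ → ℝ), (∀ i, 1 ≤ T i) → Coef T a →
    ∀ (y₀ y₁ M : ℝ) (k q : ℕ), 0 < y₀ → y₀ ≤ y₁ → 1 ≤ M → 1 ≤ k → ∃ c C : ℝ, 0 < c ∧ 0 ≤ C ∧
      ∀ (J X : ℕ) (i : Fin k → ι) (b : Fin k → Bool) (y : ℝ) (h : ℤ), (∀ j, T (i j) ≤ 2 ^ J ∧ 2 ^ J ≤ 2 ^ q * T (i j)) →
        y₀ ≤ y → y ≤ y₁ → M * 2 ^ J ≤ X → (X : ℝ) ≤ (2 * M + 2) * 2 ^ J →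
          U1 k X h (fun j => bt (T (i j)) (a (i j)) (M * T (i j)) (b j) y) ≤ C * (2 : ℝ) ^ (-(c * J)) ∧
          U2 k X h (fun j => bt (T (i j)) (a (i j)) (M * T (i j)) (b j) y) ≤ C * (2 : ℝ) ^ (-(c * J))

/-- All mixed moments over all intervals, almost surely (given `S_GMA`, `S_GMB`, `S_FOU`, `S_SN2`, `S_KODE`, `S_KBB`, `S_KW`).

Proof.  `M = ⌈1/y₀⌉ + 1`; the terms `n > M T` of `ph` are `O(exp (-c T))` (`Pool.Agent.Q255.L2.far` in Pool/Agent/Q255/L2/SNT.lean); without them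
`ph` is `∑_{m ∈ Bx X} bt(m) f(|m|) e(mx)` and `∫_0^1 (∏ ph_j) e(-hx) dx = TS`.  `S_GMA` for the functions `bt` with `y` in the net
`y₀ + (y₁-y₀) l/64^J`, `0 ≤ l ≤ 64^J` (and all `M ∈ ℕ`, `y₀ = 1/n`, `y₁ = n`; scale `J' = J + const`, so that `X = 2^(J')`); other `y`: `bt` is
Lipschitz in `y` with a constant `C 2^(4J)` (second bound of `S_KBB`), and all sums have at most `(2X+1)^k` terms: take the net
finer, `2^(-L J)` with `L = 8k + 8`, if convenient.  So `|∫_0^1 (∏ ph_j) e(-hx) dx - [h = 0] DB| ≤ C 2^(-cJ)` for all `|h| ≤ 2^J`; `S_FOU` with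
`G = C 2^(εJ)` (`S_SN2`) and `H = 2^J`.  (`DB` is real, and it does not depend on `X`, as `bt` is cut off.) -/
def S_GMC : Prop :=
  ∀ (ν : Measure (ℕ → Bool)) [IsProbabilityMeasure ν], Sml ν →
    ∀ (ι : Type) (T : ι → ℝ) (a : ι → ℕ → ℝ) (A : ℝ), Fam T A → Coef T a →
      ∀ᵐ ω ∂ν, ∀ (y₀ y₁ : ℝ) (k q : ℕ), 0 < y₀ → y₀ ≤ y₁ → 1 ≤ k → ∃ c C : ℝ, 0 < c ∧ 0 ≤ C ∧
        ∀ (J : ℕ) (i : Fin k → ι) (b : Fin k → Bool) (y α β : ℝ), (∀ j, T (i j) ≤ 2 ^ J ∧ 2 ^ J ≤ 2 ^ q * T (i j)) →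
          y₀ ≤ y → y ≤ y₁ → 0 ≤ α → α ≤ β → β ≤ 1 →
            |(∫ x in α..β, ∏ j, ph (b j) (cm ω) (T (i j)) (a (i j)) x y) - (β - α) *
              (DB k ((⌈1 / y₀⌉₊ + 1) * 2 ^ J)
                (fun j => bt (T (i j)) (a (i j)) ((⌈1 / y₀⌉₊ + 1) * T (i j)) (b j) y)).re| ≤ C * (2 : ℝ) ^ (-(c * J))

/-- Gaussian moments of all linear combinations (given `S_GMC`, `S_BAL`, `S_KODE`, `S_KW`).

Proof.  Expand `(∑ λ_j ph_j)^k` into `I^k` products, `S_GMC` for each of them; `DB` is multilinear, so the main terms add up to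
`DB (fun _ => β)`, `β = ∑ λ_j bt_j` (`β(-m)` is the conjugate).  `S_BAL` with `σ = C 2^(-J/8)`: `‖bt(m)‖ ≤ C |a(n)|/T^(1/4)` (`S_KW`) and
`|a(n)|^8 ≤ C (nT)^ε n` (first moment bound), and `∑ ‖β‖² ≤ C 2^(εJ)` (`∑_{n ≤ MT} a(n)²/√(T (1+|T-2πny|)) ≤ C T^ε`: classes and Hölder as in `S_KN2`
(a); or `S_KN2` and `∑ w² ≤ nn`).  `∑_m ‖β‖²` is `∫_0^1 (∑ λ_j ph_j)² dx` for `f = 1` up to the terms `n > M T`, `O(exp (-cT))`.  `k = 0, 1` directly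
(`gm 0 = 1`, `gm 1 = 0`). -/
def S_GMD : Prop :=
  ∀ (ν : Measure (ℕ → Bool)) [IsProbabilityMeasure ν], Sml ν →
    ∀ (ι : Type) (T : ι → ℝ) (a : ι → ℕ → ℝ) (A : ℝ), Fam T A → Coef T a →
      ∀ᵐ ω ∂ν, ∀ (y₀ y₁ : ℝ) (k I q : ℕ), 0 < y₀ → y₀ ≤ y₁ → 1 ≤ I → ∃ c C : ℝ, 0 < c ∧ 0 ≤ C ∧
        ∀ (J : ℕ) (i : Fin I → ι) (b : Fin I → Bool) (l : Fin I → ℝ) (y α β : ℝ),
          (∀ j, T (i j) ≤ 2 ^ J ∧ 2 ^ J ≤ 2 ^ q * T (i j)) → (∀ j, |l j| ≤ 1) → y₀ ≤ y → y ≤ y₁ →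
          0 ≤ α → α ≤ β → β ≤ 1 →
            |(∫ x in α..β, (∑ j, l j * ph (b j) (cm ω) (T (i j)) (a (i j)) x y) ^ k) - (β - α) * (gm k *
              √(∫ x in (0 : ℝ)..1, (∑ j, l j * ph (b j) (fun _ => 1) (T (i j)) (a (i j)) x y) ^ 2) ^ k)| ≤
                C * (2 : ℝ) ^ (-(c * J))

/-- Gaussian moments with test functions (given `S_GMD`, `S_SN2`).

Proof.  `S_GMD` with `I = 1`, `l = 1`, `q = 1`, `2^(J-1) < T ≤ 2^J`.  For fixed `y` cut `[-R, R]` into intervals of length `1/n`,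
`n = ⌈2^(c'J)⌉`; replacing `ψ(·, y)` by its value at an end point changes the integral of `ψ u^k` by at most `C L T^ε/n` (`S_SN2`), and the
intervals are translates of subintervals of `[0, 1]` (`u` has period `1` in `x`).  Both integrals are over `|x| ≤ R`,
`y₀ ≤ y ≤ y₁`.  (Continuity of both inner integrals in `y` or integrability: `u` is continuous: locally uniform convergence.) -/
def S_GME : Prop :=
  ∀ (ν : Measure (ℕ → Bool)) [IsProbabilityMeasure ν], Sml ν →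
    ∀ (ι : Type) (T : ι → ℝ) (a : ι → ℕ → ℝ) (A : ℝ), Fam T A → Coef T a →
      ∀ᵐ ω ∂ν, ∀ (k : ℕ) (ψ : ℝ → ℝ → ℝ) (R y₀ y₁ L : ℝ), 0 < y₀ → y₀ ≤ y₁ → Continuous (fun z : ℝ × ℝ => ψ z.1 z.2) →
        (∀ x x' y, |ψ x y - ψ x' y| ≤ L * |x - x'|) → (∀ x y, ψ x y ≠ 0 → |x| ≤ R ∧ y₀ ≤ y ∧ y ≤ y₁) →
        ∃ c C : ℝ, 0 < c ∧ ∀ (i : ι) (b : Bool),
          |(∫ y in y₀..y₁, (∫ x in (-R)..R, ψ x y * ph b (cm ω) (T i) (a i) x y ^ k) / y ^ 2) -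
            gm k * ∫ y in y₀..y₁, (∫ x in (-R)..R, ψ x y) *
              √(∫ x in (0 : ℝ)..1, ph b (fun _ => 1) (T i) (a i) x y ^ 2) ^ k / y ^ 2| ≤ C * T i ^ (-c)

end Pool.Agent.Q255.L2
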