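import Pool.Agent.Q65.L2.SN

/-!
# The sup norm of random twists: coefficients of polynomial growth
-/

set_option autoImplicit false

namespace Pool.Agent.Q255.L2

open Filter Topology MeasureTheory Finset
open Pool.Agent.Q255.IC Pool.Agent.Q255.IR Pool.Agent.Q255.EP Pool.Agent.Q65.L2

/-- truncation and normalisation -/
noncomputable def trT (m : ℕ) (θ T : ℝ) (a : ℕ → ℝ) (n : ℕ) : ℝ :=
  if (n : ℝ) ≤ m * T then a n * T ^ (-θ) else 0

theorem trT_le {m : ℕ} {θ T C ε : ℝ} {a : ℕ → ℝ} (hθ : 0 ≤ θ) (hT : 1 ≤ T) {n : ℕ} (hn : 1 ≤ n)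
    (h : |a n| ≤ C * (n : ℝ) ^ θ * ((n : ℝ) * T) ^ ε) :
    |trT m θ T a n| ≤ |C| * (m : ℝ) ^ θ * ((n : ℝ) * T) ^ ε := by
  have hn0 : (0 : ℝ) < n := by exact_mod_cast hn
  have hT0 : 0 < T := by linarith
  unfold trT
  split_ifs with hc
  · rw [abs_mul, abs_of_pos (Real.rpow_pos_of_pos hT0 _)]
    have h1 : (n : ℝ) ^ θ ≤ (m : ℝ) ^ θ * T ^ θ := by
      rw [← Real.mul_rpow (Nat.cast_nonneg m) hT0.le]
      exact Real.rpow_le_rpow hn0.le hc hθ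
    have h2 : T ^ θ * T ^ (-θ) = 1 := by
      rw [← Real.rpow_add hT0, add_neg_cancel, Real.rpow_zero]
    have h3 : |a n| ≤ |C| * ((m : ℝ) ^ θ * T ^ θ) * ((n : ℝ) * T) ^ ε := by
      refine h.trans (mul_le_mul_of_nonneg_right ?_ (by positivity))
      exact (mul_le_mul_of_nonneg_right (le_abs_self C) (by positivity)).trans
        (mul_le_mul_of_nonneg_left h1 (abs_nonneg _))
    calc |a n| * T ^ (-θ) ≤ |C| * ((m : ℝ) ^ θ * T ^ θ) * ((n : ℝ) * T) ^ ε * T ^ (-θ) :=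
          mul_le_mul_of_nonneg_right h3 (by positivity)
      _ = |C| * (m : ℝ) ^ θ * ((n : ℝ) * T) ^ ε * (T ^ θ * T ^ (-θ)) := by ring
      _ = _ := by rw [h2, mul_one]
  · rw [abs_zero]
    positivity

/-- the terms beyond `m T` -/
theorem far (hK : S_KODE) {m : ℕ} {θ T C y₀ y x : ℝ} {a : ℕ → ℝ} (b : Bool) (hθ : 0 ≤ θ) (hT : 1 ≤ T)
    (hy₀ : 0 < y₀) (hy : y₀ ≤ y) (hm : 1 ≤ m * y₀) {K : ℕ} (hKθ : θ + 2 ≤ K) {n : ℕ} (hn : 1 ≤ n)
    (h : |a n| ≤ C * (n : ℝ) ^ θ * ((n : ℝ) * T)) (hfar : m * T < n) :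
    |tm T a b x y n| ≤ |C| * y₀ * ((n : ℝ) ^ K * Real.exp (-(Real.pi * y₀) * n)) := by
  have hn1 : (1 : ℝ) ≤ n := by exact_mod_cast hn
  have hn0 : (0 : ℝ) < n := by linarith
  have hpi := Real.pi_pos
  have hy0 : 0 < y := hy₀.trans_le hy
  have hT0 : 0 < T := by linarith
  have hTn : T ≤ n * y₀ := by
    have h1 : T ≤ m * y₀ * T := by nlinarith
    have h2 : m * T * y₀ ≤ n * y₀ := mul_le_mul_of_nonneg_right hfar.le hy₀.le
    nlinarith
  have hu : 0 < 2 * Real.pi * n * y := by positivity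
  have hKB := hK.2.1 T (2 * Real.pi * n * y) hu
  have hs : √y * √(Real.pi / (2 * (2 * Real.pi * n * y))) ≤ 1 := by
    rw [← Real.sqrt_mul hy0.le, Real.sqrt_le_left zero_le_one, one_pow]
    have : y * (Real.pi / (2 * (2 * Real.pi * n * y))) = 1 / (4 * n) := by
      field_simp
      ring
    rw [this, div_le_one (by positivity)]
    linarith
  have hexp : Real.exp (Real.pi * T / 2) * Real.exp (-(2 * Real.pi * n * y)) ≤
      Real.exp (-(Real.pi * y₀) * n) := by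
    rw [← Real.exp_add, Real.exp_le_exp]
    have h1 : Real.pi * T ≤ Real.pi * (n * y₀) := mul_le_mul_of_nonneg_left hTn hpi.le
    have h2 : Real.pi * (n * y₀) ≤ Real.pi * (n * y) :=
      mul_le_mul_of_nonneg_left (mul_le_mul_of_nonneg_left hy hn0.le) hpi.le
    have h3 : 0 ≤ Real.pi * (n * y₀) := by positivity
    nlinarith
  have ha : |a n| ≤ |C| * y₀ * (n : ℝ) ^ K := by
    have h1 : (n : ℝ) ^ θ * ((n : ℝ) * T) ≤ y₀ * (n : ℝ) ^ K := by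
      have h2 : (n : ℝ) * T ≤ y₀ * (n : ℝ) ^ (2 : ℝ) := by
        rw [Real.rpow_two]
        nlinarith
      have h3 : (n : ℝ) ^ θ * (n : ℝ) ^ (2 : ℝ) ≤ (n : ℝ) ^ K := by
        rw [← Real.rpow_add hn0, ← Real.rpow_natCast]
        exact Real.rpow_le_rpow_of_exponent_le hn1 hKθ
      calc (n : ℝ) ^ θ * ((n : ℝ) * T) ≤ (n : ℝ) ^ θ * (y₀ * (n : ℝ) ^ (2 : ℝ)) :=
            mul_le_mul_of_nonneg_left h2 (by positivity)
        _ = y₀ * ((n : ℝ) ^ θ * (n : ℝ) ^ (2 : ℝ)) := by ring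
        _ ≤ _ := mul_le_mul_of_nonneg_left h3 hy₀.le
    calc |a n| ≤ C * (n : ℝ) ^ θ * ((n : ℝ) * T) := h
      _ = C * ((n : ℝ) ^ θ * ((n : ℝ) * T)) := by ring
      _ ≤ |C| * ((n : ℝ) ^ θ * ((n : ℝ) * T)) :=
          mul_le_mul_of_nonneg_right (le_abs_self _) (by positivity)
      _ ≤ |C| * (y₀ * (n : ℝ) ^ K) := mul_le_mul_of_nonneg_left h1 (abs_nonneg _)
      _ = _ := by ring
  unfold tm
  rw [abs_mul, abs_mul, abs_mul, abs_mul, Real.abs_exp, abs_of_nonneg (Real.sqrt_nonneg y)]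
  calc Real.exp (Real.pi * T / 2) * √y * (|a n| * |KB T (2 * Real.pi * n * y)| *
        |Real.cos (2 * Real.pi * n * x - sh b)|)
      ≤ Real.exp (Real.pi * T / 2) * √y * (|C| * y₀ * (n : ℝ) ^ K *
        (√(Real.pi / (2 * (2 * Real.pi * n * y))) * Real.exp (-(2 * Real.pi * n * y))) * 1) := by
        refine mul_le_mul_of_nonneg_left ?_ (by positivity)
        refine mul_le_mul (mul_le_mul ha hKB (abs_nonneg _) (by positivity))
          (Real.abs_cos_le_one _) (abs_nonneg _) (by positivity)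
    _ = (√y * √(Real.pi / (2 * (2 * Real.pi * n * y)))) *
        (Real.exp (Real.pi * T / 2) * Real.exp (-(2 * Real.pi * n * y))) *
          (|C| * y₀ * (n : ℝ) ^ K) := by ring
    _ ≤ 1 * Real.exp (-(Real.pi * y₀) * n) * (|C| * y₀ * (n : ℝ) ^ K) := by
        refine mul_le_mul_of_nonneg_right (mul_le_mul hs hexp (by positivity) zero_le_one)
          (by positivity)
    _ = _ := by ring

/-- one member -/
theorem one_member (hK : S_KODE) {m : ℕ} {θ T C y₀ y : ℝ} {a : ℕ → ℝ} (b : Bool) (hθ : 0 ≤ θ) (hT : 1 ≤ T)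
    (hy₀ : 0 < y₀) (hy : y₀ ≤ y) (hm : 1 ≤ m * y₀) {K : ℕ} (hKθ : θ + 2 ≤ K)
    (h : ∀ n : ℕ, 1 ≤ n → |a n| ≤ C * (n : ℝ) ^ θ * ((n : ℝ) * T)) (x : ℝ) (ω : ℕ → Bool) :
    |∑' n : ℕ, tm T a b x y (n + 1) * cm ω (n + 1)| ≤
      T ^ θ * |∑' n : ℕ, tm T (trT m θ T a) b x y (n + 1) * cm ω (n + 1)| +
        ∑' n : ℕ, |C| * y₀ * (((n + 1 : ℕ) : ℝ) ^ K * Real.exp (-(Real.pi * y₀) * ((n + 1 : ℕ) : ℝ))) := by
  have hpi := Real.pi_pos
  have hT0 : 0 < T := by linarith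
  set hh : ℕ → ℝ := fun n => |C| * y₀ * ((n : ℝ) ^ K * Real.exp (-(Real.pi * y₀) * n)) with hhh
  have hhs0 : Summable hh :=
    (Real.summable_pow_mul_exp_neg_nat_mul K (by positivity : 0 < Real.pi * y₀)).mul_left _
  have hhs : Summable fun n : ℕ => hh (n + 1) := (summable_nat_add_iff 1).2 hhs0
  -- the remainder
  set g : ℕ → ℝ := fun n => tm T a b x y (n + 1) * cm ω (n + 1) with hg
  set g1 : ℕ → ℝ := fun n => tm T (trT m θ T a) b x y (n + 1) * cm ω (n + 1) with hg1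
  have hTT : T ^ θ * T ^ (-θ) = 1 := by
    rw [← Real.rpow_add hT0, add_neg_cancel, Real.rpow_zero]
  have hin : ∀ n : ℕ, ((n + 1 : ℕ) : ℝ) ≤ m * T → T ^ θ * g1 n = g n := by
    intro n hn
    rw [hg, hg1]
    show T ^ θ * (tm T (trT m θ T a) b x y (n + 1) * cm ω (n + 1)) = tm T a b x y (n + 1) * cm ω (n + 1)
    unfold tm trT
    rw [if_pos hn]
    linear_combination (Real.exp (Real.pi * T / 2) * √y * (a (n + 1) *
      KB T (2 * Real.pi * ((n + 1 : ℕ) : ℝ) * y) * Real.cos (2 * Real.pi * ((n + 1 : ℕ) : ℝ) * x - sh b)) *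
        cm ω (n + 1)) * hTT
  have hout : ∀ n : ℕ, m * T < ((n + 1 : ℕ) : ℝ) → g1 n = 0 := by
    intro n hn
    rw [hg1]
    show tm T (trT m θ T a) b x y (n + 1) * cm ω (n + 1) = 0
    unfold tm trT
    rw [if_neg (not_le.2 hn)]
    ring
  have hs1 : Summable g1 := by
    refine summable_of_ne_finset_zero (s := Finset.range (⌈(m : ℝ) * T⌉₊ + 1)) fun n hn => hout n ?_
    rw [Finset.mem_range, not_lt] at hn
    have h1 : ((⌈(m : ℝ) * T⌉₊ + 1 : ℕ) : ℝ) ≤ n := by exact_mod_cast hn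
    have h2 := Nat.le_ceil ((m : ℝ) * T)
    push_cast at h1 ⊢
    linarith
  have hrb : ∀ n, |g n - T ^ θ * g1 n| ≤ hh (n + 1) := by
    intro n
    rcases le_or_gt ((n + 1 : ℕ) : ℝ) (m * T) with hn | hn
    · rw [hin n hn, sub_self, abs_zero]
      rw [hhh]
      positivity
    · rw [hout n hn, mul_zero, sub_zero, hg]
      show |tm T a b x y (n + 1) * cm ω (n + 1)| ≤ _
      rw [abs_mul, Pool.Agent.Q13.EP.abs_cm, mul_one]
      exact far hK b hθ hT hy₀ hy hm hKθ (Nat.le_add_left 1 n) (h (n + 1) (Nat.le_add_left 1 n)) hn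
  have hs2 : Summable fun n => |g n - T ^ θ * g1 n| :=
    Summable.of_nonneg_of_le (fun _ => abs_nonneg _) hrb hhs
  have hs3 : Summable fun n => g n - T ^ θ * g1 n := hs2.of_abs
  have hs4 : Summable fun n => T ^ θ * g1 n := hs1.mul_left _
  have e1 : ∑' n, g n = T ^ θ * ∑' n, g1 n + ∑' n, (g n - T ^ θ * g1 n) := by
    rw [← tsum_mul_left, ← hs4.tsum_add hs3]
    exact tsum_congr fun n => by ring
  rw [e1]
  refine (abs_add_le _ _).trans (add_le_add (le_of_eq ?_) ?_)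
  · rw [abs_mul, abs_of_pos (Real.rpow_pos_of_pos hT0 _)]
  · have h5 : |∑' n, (g n - T ^ θ * g1 n)| ≤ ∑' n, |g n - T ^ θ * g1 n| := by
      have := norm_tsum_le_tsum_norm (f := fun n => g n - T ^ θ * g1 n) (by simpa using hs2)
      simpa using this
    exact h5.trans (hs2.tsum_le_tsum hrb hhs)

/-- **The sup norm of random twists, coefficients of size `n^(θ+ε) T^ε`.** -/
theorem snT (hS : S_SN) (hK : S_KODE) :
    ∀ (ν : Measure (ℕ → Bool)) [IsProbabilityMeasure ν],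
      (∀ ε : ℝ, 0 < ε → ∀ᶠ x : ℕ in atTop, D ν (Nat.primeCounting x) ≤ (x : ℝ) ^ ε) →
      ∀ (ι : Type) (T : ι → ℝ) (a : ι → ℕ → ℝ) (A θ : ℝ), 0 ≤ θ → (∀ i, 1 ≤ T i) →
        (∀ X : ℝ, 1 ≤ X → {i | T i ≤ X}.Finite ∧ ({i | T i ≤ X}.ncard : ℝ) ≤ A * X ^ A) →
        (∀ ε : ℝ, 0 < ε → ∃ C : ℝ, ∀ (i : ι) (n : ℕ), 1 ≤ n →
          |a i n| ≤ C * (n : ℝ) ^ θ * (n * T i) ^ ε) →
        ∀ᵐ ω ∂ν, ∀ y₀ y₁ : ℝ, 0 < y₀ → y₀ ≤ y₁ → ∀ ε : ℝ, 0 < ε → ∃ C : ℝ, ∀ (i : ι) (x y : ℝ),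
          y₀ ≤ y → y ≤ y₁ → |phc (cm ω) (T i) (a i) x y| ≤ C * T i ^ (θ + ε) ∧
            |phs (cm ω) (T i) (a i) x y| ≤ C * T i ^ (θ + ε) := by
  intro ν _ hD ι T a A θ hθ hT hfin ha
  have hmain : ∀ m : ℕ, ∀ᵐ ω ∂ν, ∀ y₀ y₁ : ℝ, 0 < y₀ → y₀ ≤ y₁ → ∀ ε : ℝ, 0 < ε → ∃ C : ℝ,
      ∀ (i : ι) (x y : ℝ), y₀ ≤ y → y ≤ y₁ →
        |phc (cm ω) (T i) (trT m θ (T i) (a i)) x y| ≤ C * T i ^ ε ∧
        |phs (cm ω) (T i) (trT m θ (T i) (a i)) x y| ≤ C * T i ^ ε := by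
    intro m
    refine hS ν hD ι T (fun i => trT m θ (T i) (a i)) A hT hfin fun ε hε => ?_
    obtain ⟨C, hC⟩ := ha ε hε
    exact ⟨|C| * (m : ℝ) ^ θ, fun i n hn => trT_le hθ (hT i) hn (hC i n hn)⟩
  rw [← ae_all_iff] at hmain
  filter_upwards [hmain] with ω hω y₀ y₁ hy₀ hy01 ε hε
  set m := ⌈1 / y₀⌉₊ with hm
  have hm1 : 1 ≤ (m : ℝ) * y₀ := by
    have := Nat.le_ceil (1 / y₀)
    rw [← hm, div_le_iff₀ hy₀] at this
    exact this
  obtain ⟨C, hC⟩ := hω m y₀ y₁ hy₀ hy01 ε hε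
  obtain ⟨C₁, hC₁⟩ := ha 1 one_pos
  obtain ⟨K, hKθ⟩ := exists_nat_ge (θ + 2)
  set M := ∑' n : ℕ, |C₁| * y₀ * (((n + 1 : ℕ) : ℝ) ^ K *
    Real.exp (-(Real.pi * y₀) * ((n + 1 : ℕ) : ℝ))) with hM
  have hM0 : 0 ≤ M := tsum_nonneg fun n => by positivity
  refine ⟨C + M, fun i x y hy hy' => ?_⟩
  have hTi := hT i
  have hT0 : 0 < T i := by linarith
  have h1T : 1 ≤ T i ^ (θ + ε) := Real.one_le_rpow hTi (by linarith)
  have key : ∀ b : Bool, |∑' n : ℕ, tm (T i) (trT m θ (T i) (a i)) b x y (n + 1) * cm ω (n + 1)| ≤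
      C * T i ^ ε → |∑' n : ℕ, tm (T i) (a i) b x y (n + 1) * cm ω (n + 1)| ≤
        (C + M) * T i ^ (θ + ε) := by
    intro b hb
    have h1 := one_member hK (m := m) (θ := θ) (T := T i) (C := C₁) (a := a i) b hθ hTi hy₀ hy hm1 hKθ
      (fun n hn => by simpa using hC₁ i n hn) x ω
    refine h1.trans ?_
    rw [← hM]
    calc T i ^ θ * |∑' n : ℕ, tm (T i) (trT m θ (T i) (a i)) b x y (n + 1) * cm ω (n + 1)| + M
        ≤ T i ^ θ * (C * T i ^ ε) + M := by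
          have := mul_le_mul_of_nonneg_left hb (Real.rpow_pos_of_pos hT0 θ).le
          linarith
      _ = C * T i ^ (θ + ε) + M * 1 := by
          rw [Real.rpow_add hT0]
          ring
      _ ≤ C * T i ^ (θ + ε) + M * T i ^ (θ + ε) := by
          have := mul_le_mul_of_nonneg_left h1T hM0
          linarith
      _ = _ := by ring
  obtain ⟨hc, hs⟩ := hC i x y hy hy'
  rw [phc_eq] at hc
  rw [phs_eq] at hs
  constructor
  · rw [phc_eq]
    exact key true hc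
  · rw [phs_eq]
    exact key false hs

end Pool.Agent.Q255.L2
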