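import Pool.Agent.Q255.L2.StmM
import Pool.Agent.Q152.QT.Stm

/-!
# Quadratic twists: sup norms, Gaussian fields and Vinogradov mean values for almost all moduli: statements

The random signs of the files `StmM.lean`, `StmV.lean` are replaced by the Jacobi symbols `(n / m)` for almost all odd `m ≤ P`,
in the range `2^(KJ) ≤ P` (`2^J` the length of the sums).
-/

set_option autoImplicit false

namespace Pool.Agent.Q255.L2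

open Filter Topology MeasureTheory Finset
open Pool.Agent.Q255.IC Pool.Agent.Q255.IR Pool.Agent.Q255.EP
open Pool.Agent.Q152.QT (gm)
open scoped ENNReal

/-- the Jacobi symbol `(n / m)` -/
noncomputable def jc (m n : ℕ) : ℝ := (jacobiSym (n : ℤ) m : ℝ)

/-- all prime factors of `m` are larger than `2^J` -/
def Rgh (J m : ℕ) : Prop := ∀ p : ℕ, p.Prime → p ∣ m → 2 ^ J < p

open Classical in
/-- `Q J m` holds for all but few odd `m ≤ P`, uniformly for `2^(KJ) ≤ P` -/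
def Alm (Q : ℕ → ℕ → Prop) : Prop :=
  ∀ B : ℝ, ∃ (K : ℕ) (C : ℝ), ∀ J P : ℕ, 2 ^ (K * J) ≤ P →
    (((Icc 1 P).filter fun m => Odd m ∧ ¬ Q J m).card : ℝ) ≤ C * P * (2 : ℝ) ^ (-(B * J))

/-! ## The engine -/

/-- Cancellation to the square root of the variance for almost all quadratic symbols (given `S_HY`).

Proof.  `X = 2^J`, `q` a natural number.  For `w ∈ W J`: `∑_{m ≤ P, odd} |∑_n w(n) (n/m)|^(2q) = ∑_{t ∈ [1,X]^(2q)} ∏ w(t_i) ∑_m (∏ t_i / m)`.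
The tuples with a square as product: at most `P ∑ ∏ |w(t_i)| ≤ P C X^ε' nn^q` (`S_HY` for `ι = Fin (2q)`).  The others: by
`Pool.Agent.Q14.QT.t_Char` (Pool/Agent/Q14/QT/QT5.lean: `|∑_{m ≤ P, odd} (N/m)| ≤ 4 N`) at most
`4 (∑ n |w(n)|)^(2q) ≤ 4 (X · √(X nn))^(2q) = 4 X^(3q) nn^q ≤ 4 P nn^q` if `P ≥ X^(3q)` (`∑ |w(n)| ≤ √(X nn)`: every `n ≤ X` is `r² s`,
Cauchy-Schwarz over `s`).  So at most `C P X^(ε' - 2qε)` of the `m` are bad for `w` (none if `nn = 0`, since then `w = 0` on `[1, X]`),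
times `exp (A (J+1))`; `q` large. -/
def S_QE : Prop :=
  ∀ (A ε : ℝ) (W : ℕ → Finset (ℕ → ℝ)), 0 < ε → (∀ J, ((W J).card : ℝ) ≤ Real.exp (A * ((J : ℝ) + 1))) →
    Alm fun J m => ∀ w ∈ W J, |∑ n ∈ Icc 1 (2 ^ J), w n * jc m n| ≤ (2 : ℝ) ^ (ε * J) * √(nn (2 ^ J) w)

/-- From almost all odd numbers to almost all primes, all scales at once.

Proof.  `Alm` with the exponent `1` in place of `B` gives `K₁`, `C`.  A prime `p > √P`, `p ≤ P`, is odd and `2^(J+r) < √P` if `2^(KJ) ≤ P`,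
`K ≥ 2 (r + 1) + 1`, `J ≥ 1`: so it is `Rgh (J + r)`.  The exceptional primes are at most `√P + ∑_{2^J ≥ (log P)^D} C P 2^(-J) ≤ √P + 2 C P (log P)^(-D)`;
`D = max B 0 + 1`, `K = max K₁ (2 r + 3)`, `P` large (then `(log P)^D > 1`, so `J ≥ 1`). -/
def S_ALMP : Prop :=
  ∀ (Q : ℕ → ℕ → Prop) (r : ℕ), (Alm fun J m => Rgh (J + r) m → Q J m) → ∀ B : ℝ,
    ∃ (K : ℕ) (D : ℝ) (P₀ : ℕ), 0 < D ∧ ∀ P : ℕ, P₀ ≤ P → ∀ S : Finset ℕ,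
      (∀ p ∈ S, p ≤ P ∧ p.Prime ∧ ∃ J : ℕ, Real.log P ^ D ≤ 2 ^ J ∧ 2 ^ (K * J) ≤ P ∧ ¬ Q J p) →
        (S.card : ℝ) ≤ P / Real.log P ^ B

/-! ## Vinogradov mean values -/

/-- Vinogradov mean values twisted by almost all quadratic symbols (given `S_QE`, `S_VMA`).

Proof.  `S_VMA` (proved: `Pool.Agent.Q150.L2.vma`) with `N = 2^J`, `X = 2^(2sJ)` and `χ` the completely multiplicative function with the value
`(p/m)` at the primes `p ∤ m` and `1` at the primes `p ∣ m`; for `m` with `Rgh J m` it agrees with `(n/m)` at all `n` without prime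
factors larger than `2^J`, and `AA s k (Ioc a b) n = 0` for the other `n`.  `S_QE` at the scale `2 s J` for the functions
`AA s k (Ioc a b)`, `a ≤ b ≤ 2^J`, `ε = c/(8 s)`: `|∑ AA χ| ≤ 2^(ε 2 s J) √(C 2^(J (2s-c)))`. -/
def S_VMQ : Prop :=
  ∀ s k : ℕ, 1 ≤ s → 1 ≤ k → ∃ c C : ℝ, 0 < c ∧ 0 ≤ C ∧ Alm fun J m => Rgh J m → ∀ a b : ℕ, a ≤ b → b ≤ 2 ^ J →
    |JJ (jc m) s k (Ioc a b) - (s.factorial : ℝ) * ((b : ℝ) - a) ^ s| ≤ C * ((2 : ℝ) ^ J) ^ ((s : ℝ) - c)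

/-! ## Maass expansions -/

/-- The sup norm of quadratic twists (given `S_QE`, `S_KODE`, `S_KBB`, `S_KW`, `S_KN2`).

Proof: as `S_SN2` (the terms beyond `M T`, `M = ⌈1/y₀⌉`, by `Pool.Agent.Q255.L2.far`, which has no signs in it; net points; `S_KN2` for the
norm), with `S_QE` at the scale `J + r`, `2^r ≥ M`, for the set of the functions belonging to the members with `T_i ≤ 2^J ≤ 2^q T_i` and the
net points. -/
def S_SNQ : Prop :=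
  ∀ (ι : Type) (T : ι → ℝ) (a : ι → ℕ → ℝ) (A : ℝ), Fam T A → Coef T a →
    ∀ (y₀ y₁ ε : ℝ) (q : ℕ), 0 < y₀ → y₀ ≤ y₁ → 0 < ε → ∃ C : ℝ, Alm fun J m =>
      ∀ (i : ι) (x y : ℝ), T i ≤ 2 ^ J → (2 : ℝ) ^ J ≤ 2 ^ q * T i → y₀ ≤ y → y ≤ y₁ →
        |phc (jc m) (T i) (a i) x y| ≤ C * T i ^ ε ∧ |phs (jc m) (T i) (a i) x y| ≤ C * T i ^ ε

/-- The counts, with different heights and arbitrary phases (given `S_WC`, `S_KW`, `S_KN2`).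

Proof: the proof of `S_GMB` (`Pool.Agent.Q162.L2.GMB.gmb`) uses only the absolute values of the coefficients, for each index `j`
separately. -/
def S_GMB2 : Prop :=
  ∀ (ι : Type) (T : ι → ℝ) (a : ι → ℕ → ℝ), (∀ i, 1 ≤ T i) → Coef T a →
    ∀ (y₀ y₁ M : ℝ) (k q : ℕ), 0 < y₀ → y₀ ≤ y₁ → 1 ≤ M → 1 ≤ k → ∃ c C : ℝ, 0 < c ∧ 0 ≤ C ∧
      ∀ (J X : ℕ) (i : Fin k → ι) (b : Fin k → Bool) (y : Fin k → ℝ) (β : Fin k → ℤ → ℂ) (h : ℤ),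
        (∀ j, T (i j) ≤ 2 ^ J ∧ 2 ^ J ≤ 2 ^ q * T (i j)) → (∀ j, y₀ ≤ y j ∧ y j ≤ y₁) →
        (∀ j m, ‖β j m‖ ≤ ‖bt (T (i j)) (a (i j)) (M * T (i j)) (b j) (y j) m‖) →
        M * 2 ^ J ≤ X → (X : ℝ) ≤ (2 * M + 2) * 2 ^ J →
          U1 k X h β ≤ C * (2 : ℝ) ^ (-(c * J)) ∧ U2 k X h β ≤ C * (2 : ℝ) ^ (-(c * J))

/-- Moments of the twists for almost all `m`, from the two counts (given `S_QE`).

Proof: as `S_GMA`, with `S_QE` at the scale `k J` (`ε = c/(4k)`) in place of `S_ENG2`, for the functions `Re co`, `Im co`;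
`(∏ |m_j| / m)` is the product of the symbols, and it is `1` if the product is a square, since it is prime to `m` (`Rgh J m`). -/
def S_GMAQ : Prop :=
  ∀ (k : ℕ), 1 ≤ k → ∀ (𝓑 : ℕ → Finset (ℤ → ℂ)) (A c C₀ : ℝ), 0 < c →
    (∀ J, ∀ β ∈ 𝓑 J, ∀ m : ℤ, m ∉ Bx (2 ^ J) → β m = 0) → (∀ J, ((𝓑 J).card : ℝ) ≤ Real.exp (A * ((J : ℝ) + 1))) →
    (∀ J, ∀ β : Fin k → ℤ → ℂ, (∀ j, β j ∈ 𝓑 J) → ∀ h : ℤ,
      U1 k (2 ^ J) h β ≤ C₀ * (2 : ℝ) ^ (-(c * J)) ∧ U2 k (2 ^ J) h β ≤ C₀ * (2 : ℝ) ^ (-(c * J))) →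
    ∃ C : ℝ, Alm fun J m => Rgh J m → ∀ β : Fin k → ℤ → ℂ, (∀ j, β j ∈ 𝓑 J) → ∀ h : ℤ, |h| ≤ 2 ^ J →
      ‖TS (jc m) k (2 ^ J) h β - if h = 0 then DB k (2 ^ J) β else 0‖ ≤ C * (2 : ℝ) ^ (-(c / 4 * J))

/-- All mixed moments over all intervals, at shifted points, for almost all quadratic twists (given `S_GMAQ`, `S_GMB2`, `S_FOU`,
`S_SNQ`, `S_KODE`, `S_KBB`, `S_KW`).

Proof: as `S_GMC`.  `M = ⌈1/y₀⌉ + 1`, `2^r ∈ [M, 2M]`, `X = 2^(J+r)`.  `ph (x + u, y)` is `∑_{n ∈ Bx X} bt(n) ee(n u) χ(|n|) ee(n x)` up to the terms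
`|n| > M T`, which are `O(exp (-c T))`; `S_GMAQ` at the scale `J + r` for the functions `bt(n) ee(n u)`, with `y` and `u` (modulo `1`) in nets of mesh
`2^(-L J)`, and `S_GMB2` (with this `X`) for their counts; `bt(n) ee(n u)` is Lipschitz in `y` and `u` with a constant `C 2^(4J)`.  `S_FOU` with
`G = C 2^(εJ)` (`S_SNQ`), `H = 2^J`. -/
def S_GMCQ : Prop :=
  ∀ (ι : Type) (T : ι → ℝ) (a : ι → ℕ → ℝ) (A : ℝ), Fam T A → Coef T a →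
    ∀ (y₀ y₁ : ℝ) (k q : ℕ), 0 < y₀ → y₀ ≤ y₁ → 1 ≤ k → ∃ (r : ℕ) (c C : ℝ), 0 < c ∧ 0 ≤ C ∧
      Alm fun J m => Rgh (J + r) m → ∀ (i : Fin k → ι) (b : Fin k → Bool) (u y : Fin k → ℝ) (α β : ℝ),
        (∀ j, T (i j) ≤ 2 ^ J ∧ 2 ^ J ≤ 2 ^ q * T (i j)) → (∀ j, y₀ ≤ y j ∧ y j ≤ y₁) → 0 ≤ α → α ≤ β → β ≤ 1 →
          |(∫ x in α..β, ∏ j, ph (b j) (jc m) (T (i j)) (a (i j)) (x + u j) (y j)) - (β - α) *
            (DB k ((⌈1 / y₀⌉₊ + 1) * 2 ^ J) (fun j n =>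
              bt (T (i j)) (a (i j)) ((⌈1 / y₀⌉₊ + 1) * T (i j)) (b j) (y j) n * ee ((n : ℝ) * u j))).re| ≤
            C * (2 : ℝ) ^ (-(c * J))

/-- The Gaussian field: moments of all linear combinations at shifted points for almost all quadratic twists (given
`S_GMCQ`, `S_BAL`, `S_KODE`, `S_KW`, `S_KN2`).

Proof: as `S_GMD`. -/
def S_GMDQ : Prop :=
  ∀ (ι : Type) (T : ι → ℝ) (a : ι → ℕ → ℝ) (A : ℝ), Fam T A → Coef T a →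
    ∀ (y₀ y₁ : ℝ) (k I q : ℕ), 0 < y₀ → y₀ ≤ y₁ → 1 ≤ I → ∃ (r : ℕ) (c C : ℝ), 0 < c ∧ 0 ≤ C ∧
      Alm fun J m => Rgh (J + r) m → ∀ (i : Fin I → ι) (b : Fin I → Bool) (l u y : Fin I → ℝ) (α β : ℝ),
        (∀ j, T (i j) ≤ 2 ^ J ∧ 2 ^ J ≤ 2 ^ q * T (i j)) → (∀ j, |l j| ≤ 1) → (∀ j, y₀ ≤ y j ∧ y j ≤ y₁) →
        0 ≤ α → α ≤ β → β ≤ 1 →
          |(∫ x in α..β, (∑ j, l j * ph (b j) (jc m) (T (i j)) (a (i j)) (x + u j) (y j)) ^ k) - (β - α) * (gm k *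
            √(∫ x in (0 : ℝ)..1, (∑ j, l j * ph (b j) (fun _ => 1) (T (i j)) (a (i j)) (x + u j) (y j)) ^ 2) ^ k)| ≤
              C * (2 : ℝ) ^ (-(c * J))

/-- Gaussian moments with test functions for almost all quadratic twists (given `S_GMDQ`, `S_SNQ`).

Proof: as `S_GME` (`Pool.Agent.Q195.L2.gme`). -/
def S_GMEQ : Prop :=
  ∀ (ι : Type) (T : ι → ℝ) (a : ι → ℕ → ℝ) (A : ℝ), Fam T A → Coef T a →
    ∀ (k : ℕ) (R y₀ y₁ : ℝ), 0 < y₀ → y₀ ≤ y₁ → ∃ (r : ℕ) (c C : ℝ), 0 < c ∧ 0 ≤ C ∧ Alm fun J m => Rgh (J + r) m →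
      ∀ (ψ : ℝ → ℝ → ℝ) (L : ℝ), Continuous (fun z : ℝ × ℝ => ψ z.1 z.2) → (∀ x y, |ψ x y| ≤ L) →
        (∀ x x' y, |ψ x y - ψ x' y| ≤ L * |x - x'|) → (∀ x y, ψ x y ≠ 0 → |x| ≤ R ∧ y₀ ≤ y ∧ y ≤ y₁) →
        ∀ (i : ι) (b : Bool), T i ≤ 2 ^ J → (2 : ℝ) ^ J ≤ 2 * T i →
          |(∫ y in y₀..y₁, (∫ x in (-R)..R, ψ x y * ph b (jc m) (T i) (a i) x y ^ k) / y ^ 2) -
            gm k * ∫ y in y₀..y₁, (∫ x in (-R)..R, ψ x y) *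
              √(∫ x in (0 : ℝ)..1, ph b (fun _ => 1) (T i) (a i) x y ^ 2) ^ k / y ^ 2| ≤ C * L * (2 : ℝ) ^ (-(c * J))

end Pool.Agent.Q255.L2
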