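import Pool.Agent.Q255.L2.Alm

/-!
# Quadratic twists of fixed automorphic forms on low horocycles: Gaussian field with explicit covariance: statements

The forms are fixed, the height `y ~ 2^(-J)` of the horocycle tends to `0`.  `a i` are the coefficients, `V i` the weight functions
(`K_{iT}(2πu)` for a Maass form).
-/

set_option autoImplicit false

namespace Pool.Agent.Q255.L2Y

open Filter Topology MeasureTheory Finset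
open Pool.Agent.Q255.IC Pool.Agent.Q255.IR Pool.Agent.Q255.EP Pool.Agent.Q255.L2
open Pool.Agent.Q152.QT (gm)
open scoped ENNReal

/-- admissible weight functions on the positive half line, `V'` is the derivative -/
def Adm (V V' : ℝ → ℝ) : Prop :=
  ∃ C₀ c₀ : ℝ, 0 < c₀ ∧ ∀ u : ℝ, 0 < u → HasDerivAt V (V' u) u ∧ |V u| ≤ C₀ * Real.exp (-(c₀ * u)) ∧
    |V' u| ≤ C₀ * Real.exp (-(c₀ * u)) / u

/-- `√y ∑ a(n) f(n) V(n y) cos (2πnx)` (`b = true`) or with `sin` (`b = false`) -/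
noncomputable def uf (b : Bool) (f a : ℕ → ℝ) (V : ℝ → ℝ) (x y : ℝ) : ℝ :=
  √y * ∑' n : ℕ, a (n + 1) * f (n + 1) * V ((n + 1) * y) *
    (if b then Real.cos (2 * Real.pi * (n + 1) * x) else Real.sin (2 * Real.pi * (n + 1) * x))

/-- the coefficients of `uf` as a trigonometric polynomial, cut off at `|m| ≤ M` -/
noncomputable def ut (b : Bool) (a : ℕ → ℝ) (V : ℝ → ℝ) (M y : ℝ) (m : ℤ) : ℂ :=
  if m ≠ 0 ∧ (m.natAbs : ℝ) ≤ M then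
    ((√y * a m.natAbs * V (m.natAbs * y) / 2 : ℝ) : ℂ) * (if b then 1 else -Complex.I * (m.sign : ℂ)) else 0

/-- `cos (θ)` or `∓ sin (θ)` -/
noncomputable def tr (b b' : Bool) (θ : ℝ) : ℝ :=
  if b = b' then Real.cos θ else if b then -Real.sin θ else Real.sin θ

/-- the covariance `(κ/2) √(h h') ∫_0^∞ V(h t) W(h' t) cos (2πtτ) dt` (with `∓ sin` for different parity) -/
noncomputable def cv (κ : ℝ) (V W : ℝ → ℝ) (b b' : Bool) (h h' τ : ℝ) : ℝ :=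
  κ / 2 * √(h * h') * ∫ t in Set.Ioi (0 : ℝ), V (h * t) * W (h' * t) * tr b b' (2 * Real.pi * t * τ)

/-- Rankin-Selberg asymptotics -/
def Gram {ι : Type} (a : ι → ℕ → ℝ) (κ : ι → ι → ℝ) : Prop :=
  ∃ η C : ℝ, 0 < η ∧ η < 1 ∧ ∀ (i j : ι) (N : ℕ), 1 ≤ N →
    |∑ n ∈ Icc 1 N, a i n * a j n - κ i j * N| ≤ C * (N : ℝ) ^ (1 - η)

/-- `K_{iT}(2πu)` is admissible (given `S_KODE`, `S_KBB`).

Proof.  `V u = KB T (2πu)`, `V' u = 2π KB1 T (2πu)`.  `|V| ≤ C(T)` by the first bound of `S_KBB`, `|V| ≤ C exp (-2πu)` for `u ≥ 1` by `S_KODE`.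
`|v KB1 T v| ≤ C √T exp (-πT/2)` for all `v > 0` by the second bound of `S_KBB` (difference quotients in `log v`), and
`|KB1 T v| ≤ C exp (-v)` for `v ≥ 1` by `S_KODE`. -/
def S_YK : Prop :=
  ∀ T : ℝ, 1 ≤ T → Adm (fun u => KB T (2 * Real.pi * u)) (fun u => 2 * Real.pi * KB1 T (2 * Real.pi * u))

/-- The counts (given `S_WC`).

Proof.  As in `S_GMB` (`Pool.Agent.Q162.L2.GMB.gmb`), simpler: no small part (`q = 0`, `ρ = 0`); `N = ⌊2^((1+η)J)⌋`, `σ = C 2^(-J/2)`,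
`b = |a|` cut off at `N` (`nn N b² ≤ C N^(1+ε)` by Cauchy-Schwarz and the second moment bound, as there), `p = 2^(-J/2) |a|` cut off,
`nn p ≤ 2^(-J) C N^(1+ε)`.  `S_WC`: at most `C X^ε 2^(-kJ/2) N^(kε + k/2 - c)`, and with `2k` in place of `k` for `U2`;
`η = ε` small (`X ≤ 2^(2J)`).  `J = 0`: everything is bounded. -/
def S_YB : Prop :=
  ∀ (ι : Type) (a : ι → ℕ → ℝ), Coef (fun _ => (1 : ℝ)) a → ∀ k : ℕ, 1 ≤ k →
    ∃ η c C : ℝ, 0 < η ∧ η ≤ 1 ∧ 0 < c ∧ 0 ≤ C ∧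
      ∀ (J X : ℕ) (i : Fin k → ι) (β : Fin k → ℤ → ℂ) (h : ℤ),
        (∀ j m, ‖β j m‖ ≤ (2 : ℝ) ^ (-((J : ℝ) / 2)) * |a (i j) m.natAbs|) →
        (∀ j m, (2 : ℝ) ^ ((1 + η) * J) < (m.natAbs : ℝ) → β j m = 0) → X ≤ 2 ^ (2 * J) →
          U1 k X h β ≤ C * (2 : ℝ) ^ (-(c * J)) ∧ U2 k X h β ≤ C * (2 : ℝ) ^ (-(c * J))

/-- The size (given `S_QE`).

Proof.  `S_QE` at the scale `2J` for the functions `√y a_i(n) V_i(ny) cos (2πnx)` (and `sin`), `n ≤ 4^J`, with `x` (modulo `1`) and `y` in nets of mesh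
`2^(-20 J)`; their norm is at most `C y ∑_s (∑_r |a(r² s)| exp (-c r² s y))² ≤ C 2^(εJ)`: dyadic classes `r ~ R`, `s ~ S`, `R² S ≤ 2^((1+ε) J)`:
`y R ∑_s ∑_r a(r²s)² ≤ y R (R S)^(1/2) (∑∑ a⁴)^(1/2) ≤ C y R² S 2^(εJ)`; the terms with `n y > 2^(εJ)` are negligible.  The terms `n > 4^J` of the
series are `O(1)`, since `|a(n)|^8 ≤ C n²` and `V(ny) = O(exp (-c 2^(-J) n))`.  Other `x, y`: the functions are Lipschitz with a constant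
`C 2^(10J)` (`V(n·)` has the derivative `n V'(ny)`, `|V'(u)| ≤ C/u`). -/
def S_YS : Prop :=
  ∀ (ι : Type) [Fintype ι] (a : ι → ℕ → ℝ) (V V' : ι → ℝ → ℝ), Coef (fun _ => (1 : ℝ)) a → (∀ i, Adm (V i) (V' i)) →
    ∀ h₀ h₁ ε : ℝ, 0 < h₀ → h₀ ≤ h₁ → 0 < ε → ∃ C : ℝ, Alm fun J m =>
      ∀ (i : ι) (b : Bool) (x y : ℝ), h₀ * (2 : ℝ) ^ (-(J : ℝ)) ≤ y → y ≤ h₁ * (2 : ℝ) ^ (-(J : ℝ)) →
        |uf b (jc m) (a i) (V i) x y| ≤ C * (2 : ℝ) ^ (ε * J)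

/-- All mixed moments over all intervals (given `S_GMAQ`, `S_YB`, `S_FOU`, `S_YS`).

Proof: as `S_GMCQ`/`S_GMC`.  `X = 4^J = 2^(2J)`, `S_GMAQ` at the scale `2J`, for the functions `ut(n) ee(n u)` cut off at `|n| ≤ 2^((1+η)J)`, `y, u` in nets;
`S_YB` (divide by a constant, `|V| ≤ C₀`, `√y ≤ C 2^(-J/2)`) for the counts.  The terms `|n| > 2^((1+η)J)` of the series and of `DB` contribute at most
`C exp (-c 2^(ηJ))`.  `S_FOU` with `G = C 2^(εJ)` (`S_YS`), `H = 2^J`.  (Continuity of `uf` in `x`: uniform convergence.) -/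
def S_YC : Prop :=
  ∀ (ι : Type) [Fintype ι] (a : ι → ℕ → ℝ) (V V' : ι → ℝ → ℝ), Coef (fun _ => (1 : ℝ)) a → (∀ i, Adm (V i) (V' i)) →
    ∀ (h₀ h₁ : ℝ) (k : ℕ), 0 < h₀ → h₀ ≤ h₁ → 1 ≤ k → ∃ c C : ℝ, 0 < c ∧ 0 ≤ C ∧
      Alm fun J m => Rgh (2 * J) m → ∀ (i : Fin k → ι) (b : Fin k → Bool) (u y : Fin k → ℝ) (α β : ℝ),
        (∀ j, h₀ * (2 : ℝ) ^ (-(J : ℝ)) ≤ y j ∧ y j ≤ h₁ * (2 : ℝ) ^ (-(J : ℝ))) → 0 ≤ α → α ≤ β → β ≤ 1 →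
          |(∫ x in α..β, ∏ j, uf (b j) (jc m) (a (i j)) (V (i j)) (x + u j) (y j)) - (β - α) *
            (DB k (4 ^ J) (fun j n => ut (b j) (a (i j)) (V (i j)) (4 ^ J) (y j) n * ee ((n : ℝ) * u j))).re| ≤
            C * (2 : ℝ) ^ (-(c * J))

/-- The covariance.

Proof.  `∑_n ut_i(n) ee(n u) ut_j(-n) ee(-n u') = (1/2) ∑_{n ≥ 1, n ≤ 4^J} √(y h) √(y h') a_i(n) a_j(n) V_i(n y h) V_j(n y h') tr(2πn(u-u'))`,
`u - u' = y τ`.  With `G(t) = √(hh') V_i(ht) V_j(h't) tr(2πtτ)`, `|G'(t)| ≤ C (1 + 1/t) exp (-ct)`: partial summation,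
`y ∑ a_i a_j G(ny) = - y² ∫_1^∞ A(x) G'(xy) dx + O(y) = κ ∫ G + O(y^η)` (`A(x) = ∑_{n ≤ x} a_i a_j = κ x + O(x^(1-η))`), the terms
`n > 4^J` are negligible. -/
def S_YV : Prop :=
  ∀ (ι : Type) [Fintype ι] (a : ι → ℕ → ℝ) (V V' : ι → ℝ → ℝ) (κ : ι → ι → ℝ),
    Coef (fun _ => (1 : ℝ)) a → (∀ i, Adm (V i) (V' i)) → Gram a κ →
    ∀ h₀ h₁ L : ℝ, 0 < h₀ → h₀ ≤ h₁ → 0 < L → ∃ c C : ℝ, 0 < c ∧ 0 ≤ C ∧
      ∀ (J : ℕ) (i j : ι) (b b' : Bool) (τ τ' h h' y : ℝ), (2 : ℝ) ^ (-(J : ℝ)) ≤ y → y ≤ 2 * (2 : ℝ) ^ (-(J : ℝ)) →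
        |τ| ≤ L → |τ'| ≤ L → h₀ ≤ h → h ≤ h₁ → h₀ ≤ h' → h' ≤ h₁ →
          ‖∑ n ∈ Bx (4 ^ J), (ut b (a i) (V i) (4 ^ J) (y * h) n * ee ((n : ℝ) * (y * τ))) *
            (ut b' (a j) (V j) (4 ^ J) (y * h') (-n) * ee (((-n : ℤ) : ℝ) * (y * τ'))) -
              ((cv (κ i j) (V i) (V j) b b' h h' (τ - τ') : ℝ) : ℂ)‖ ≤ C * (2 : ℝ) ^ (-(c * J))

/-- The Gaussian field (given `S_YC`, `S_YV`, `S_BAL`).

Proof: as `S_GMD`.  Expand, `S_YC` for each product, `DB` is multilinear, so the main terms add up to `DB (fun _ => β)`,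
`β(n) = ∑_j l_j ut_j(n) ee(n y τ_j)`, `β(-n)` the conjugate.  `S_BAL` with `σ = C 2^(-J/2)` (`‖ut(n)‖² ≤ C 2^(-J) a(n)² exp (-c n 2^(-J))`,
`|a(n)|^8 ≤ C n^(1+ε)`), `∑ ‖β‖² = ∑_{p,q} l_p l_q cv + O(2^(-cJ))` by `S_YV`; for even `k` both main terms are powers with
exponent `k/2` of bounded numbers, for odd `k` they vanish (`k = 0, 1` directly). -/
def S_YD : Prop :=
  ∀ (ι : Type) [Fintype ι] (a : ι → ℕ → ℝ) (V V' : ι → ℝ → ℝ) (κ : ι → ι → ℝ),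
    Coef (fun _ => (1 : ℝ)) a → (∀ i, Adm (V i) (V' i)) → Gram a κ →
    ∀ (h₀ h₁ L : ℝ) (k I : ℕ), 0 < h₀ → h₀ ≤ h₁ → 0 < L → 1 ≤ I → ∃ c C : ℝ, 0 < c ∧ 0 ≤ C ∧
      Alm fun J m => Rgh (2 * J) m → ∀ (i : Fin I → ι) (b : Fin I → Bool) (l τ h : Fin I → ℝ) (y α β : ℝ),
        (2 : ℝ) ^ (-(J : ℝ)) ≤ y → y ≤ 2 * (2 : ℝ) ^ (-(J : ℝ)) → (∀ j, |l j| ≤ 1) → (∀ j, |τ j| ≤ L) →
        (∀ j, h₀ ≤ h j ∧ h j ≤ h₁) → 0 ≤ α → α ≤ β → β ≤ 1 →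
          |(∫ x in α..β, (∑ j, l j * uf (b j) (jc m) (a (i j)) (V (i j)) (x + y * τ j) (y * h j)) ^ k) -
            (β - α) * (gm k * √(∑ p, ∑ q, l p * l q *
              cv (κ (i p) (i q)) (V (i p)) (V (i q)) (b p) (b q) (h p) (h q) (τ p - τ q)) ^ k)| ≤
            C * (2 : ℝ) ^ (-(c * J))

/-- Independence of orthogonal forms (given `S_YD`).

Proof.  `S_YD` for `Fin I ≃ ι`, `τ = 0`, `h = 1`, `k = ∑ e_i`: the two sides are polynomials in `l`, homogeneous of degree `k`, their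
difference is at most `δ = C 2^(-cJ)` for `|l_j| ≤ 1`, so every coefficient of the difference is at most `C' δ` (finite dimension, or finite
differences at `l_j ∈ {0, 1/k, …, 1}`).  The coefficient of `∏ l_i^(e_i)` is `k!/∏ e_i! · ∫ ∏ uf_i^(e_i)` on the left and, as
`cv = 0` for `i ≠ j`, `gm k · (k/2)!/∏ (e_i/2)! · ∏ v_i^(e_i)`, `v_i² = cv_ii`, on the right if all `e_i` are even, else `0`; and
`gm (2j) = (2j)!/(2^j j!)`. -/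
def S_YE : Prop :=
  ∀ (ι : Type) [Fintype ι] (a : ι → ℕ → ℝ) (V V' : ι → ℝ → ℝ) (κ : ι → ι → ℝ),
    Coef (fun _ => (1 : ℝ)) a → (∀ i, Adm (V i) (V' i)) → Gram a κ → (∀ i j, i ≠ j → κ i j = 0) →
    ∀ e : ι → ℕ, ∃ c C : ℝ, 0 < c ∧ 0 ≤ C ∧
      Alm fun J m => Rgh (2 * J) m → ∀ (b : ι → Bool) (y α β : ℝ),
        (2 : ℝ) ^ (-(J : ℝ)) ≤ y → y ≤ 2 * (2 : ℝ) ^ (-(J : ℝ)) → 0 ≤ α → α ≤ β → β ≤ 1 →
          |(∫ x in α..β, ∏ i, uf (b i) (jc m) (a i) (V i) x y ^ e i) -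
            (β - α) * ∏ i, (gm (e i) * √(κ i i / 2 * ∫ t in Set.Ioi (0 : ℝ), V i t ^ 2) ^ e i)| ≤
            C * (2 : ℝ) ^ (-(c * J))

/-! ## The covariance of Maass forms is invariant under isometries -/

/-- Macdonald's product formula.

Proof.  `K_{iT}(a) K_{iT}(b) = (1/4) ∫∫_{ℝ²} exp (-a cosh u - b cosh v) exp (iT(u - v)) du dv` (each factor is even in its variable);
`u = p + q`, `v = p - q`, `du dv = 2 dp dq`; `a cosh u + b cosh v = (1/2) (w + (a² + b² + 2ab cosh (2q))/w)` with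
`w = exp p (a exp q + b exp (-q))`, `dp = dw/w` for fixed `q`; then for fixed `w` the integral over `q` is
`∫ exp (2iTq) exp (-(ab/w) cosh (2q)) dq = K_{iT}(ab/w)`.  All integrals converge absolutely. -/
def S_YI1 : Prop :=
  ∀ T a b : ℝ, 0 < a → 0 < b →
    IntegrableOn (fun w : ℝ => Real.exp (-(w + (a ^ 2 + b ^ 2) / w) / 2) * KB T (a * b / w) / w) (Set.Ioi 0) ∧
    KB T a * KB T b =
      (1 / 2) * ∫ w in Set.Ioi (0 : ℝ), Real.exp (-(w + (a ^ 2 + b ^ 2) / w) / 2) * KB T (a * b / w) / w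

/-- The kernel depends only on the hyperbolic distance: `cosh d = (h² + h'² + τ²)/(2 h h')` (given `S_YI1`, `S_KODE`, `S_KBB`).

Proof.  `S_YI1` with `a = 2πht`, `b = 2πh't`, `w = v`, then `x = 4π²t²/v` for fixed `v` (`dt = √v/(4π√x) dx`): the left side is
`√(hh') (1/(8π)) ∫_0^∞ ∫_0^∞ exp (-v/2 - x (h²+h'²)/2) KB T (x h h') cos (√(xv) τ) v^(-1/2) x^(-1/2) dv dx`, and
`∫_0^∞ exp (-v/2) cos (√(xv) τ) v^(-1/2) dv = √(2π) exp (-x τ²/2)` (`v = s²`, Fourier transform of the Gaussian function); finally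
`x → x/(hh')`.  Absolute convergence: `|KB T u| ≤ C (T)` for `T ≥ 1` and `|KB T u| ≤ C exp (-u)` for `u ≥ 1`. -/
def S_YI2 : Prop :=
  ∀ T h h' τ : ℝ, 1 ≤ T → 0 < h → 0 < h' →
    √(h * h') * ∫ t in Set.Ioi (0 : ℝ), KB T (2 * Real.pi * (h * t)) * KB T (2 * Real.pi * (h' * t)) *
      Real.cos (2 * Real.pi * t * τ) =
    √(2 * Real.pi) / (8 * Real.pi) * ∫ x in Set.Ioi (0 : ℝ),
      Real.exp (-(x * ((h ^ 2 + h' ^ 2 + τ ^ 2) / (2 * h * h')))) * KB T x / √x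

end Pool.Agent.Q255.L2Y
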