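import Pool.Agent.Q65.L2.Almp

/-!
# From almost all odd numbers to almost all primes, all scales above a given one
-/

set_option autoImplicit false

namespace Pool.Agent.Q255.L2

open Finset Pool.Agent.Q65.L2.Almp

theorem almz {Q : ℕ → ℕ → Prop} {r : ℕ} (hAlm : Alm fun J m => Rgh (J + r) m → Q J m) {B : ℝ} (hB : 0 ≤ B) :
    ∃ (K : ℕ) (C : ℝ), 0 ≤ C ∧ ∀ (P : ℕ) (Z : ℝ) (S : Finset ℕ), 1 ≤ Z →
      (∀ p ∈ S, p ≤ P ∧ p.Prime ∧ ∃ J : ℕ, Z ≤ 2 ^ J ∧ 2 ^ (K * J) ≤ P ∧ ¬ Q J p) →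
        (S.card : ℝ) ≤ C * P * Z ^ (-B) := by
  classical
  rw [alm_iff] at hAlm
  obtain ⟨K₁, C₁, hC⟩ := hAlm (B + 1)
  set K : ℕ := max K₁ (⌈B⌉₊ + 1) with hK
  have hC0 : (0 : ℝ) ≤ max C₁ 0 := le_max_right _ _
  refine ⟨K, 2 * max C₁ 0 + 2 ^ (r + 1), by positivity, ?_⟩
  intro P Z S hZ hS
  have hZ0 : 0 < Z := by linarith
  rcases S.eq_empty_or_nonempty with h0 | h0
  · rw [h0, card_empty, Nat.cast_zero]
    positivity
  set T : Finset ℕ := (range (P + 1)).filter fun J => Z ≤ 2 ^ J ∧ 2 ^ (K * J) ≤ P with hT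
  have hK1 : 1 ≤ K := le_trans (Nat.succ_le_succ (Nat.zero_le _)) (le_max_right _ _)
  have hmemT : ∀ J : ℕ, Z ≤ 2 ^ J → 2 ^ (K * J) ≤ P → J ∈ T := by
    intro J h1 h2
    rw [hT, mem_filter, mem_range]
    refine ⟨?_, h1, h2⟩
    have h3 : J < 2 ^ J := Nat.lt_two_pow_self
    have h4 : 2 ^ J ≤ 2 ^ (K * J) := Nat.pow_le_pow_right (by norm_num) (Nat.le_mul_of_pos_left J hK1)
    omega
  have hTne : T.Nonempty := by
    obtain ⟨p, hp⟩ := h0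
    obtain ⟨-, -, J, h1, h2, -⟩ := hS p hp
    exact ⟨J, hmemT J h1 h2⟩
  set M : ℕ := T.max' hTne with hM
  have hMT : M ∈ T := T.max'_mem hTne
  have hM2 : Z ≤ 2 ^ M ∧ 2 ^ (K * M) ≤ P := by
    rw [hT, mem_filter] at hMT
    exact hMT.2
  have hsub : S ⊆ Icc 1 (2 ^ (M + r + 1)) ∪
      T.biUnion fun J => Exc (fun J m => Rgh (J + r) m → Q J m) J P := by
    intro p hp
    obtain ⟨hpP, hpp, J, hJ1, hJ2, hJQ⟩ := hS p hp
    have hJT := hmemT J hJ1 hJ2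
    have hJM : J ≤ M := T.le_max' J hJT
    rw [mem_union]
    rcases le_or_gt p (2 ^ (M + r + 1)) with h | h
    · left
      rw [mem_Icc]
      exact ⟨hpp.one_le, h⟩
    · right
      rw [mem_biUnion]
      refine ⟨J, hJT, ?_⟩
      have h2 : 2 ^ (J + r) ≤ 2 ^ (M + r + 1) := Nat.pow_le_pow_right (by norm_num) (by omega)
      have h3 : 2 ≤ 2 ^ (M + r + 1) := by
        calc 2 = 2 ^ 1 := by norm_num
          _ ≤ 2 ^ (M + r + 1) := Nat.pow_le_pow_right (by norm_num) (by omega)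
      rw [mem_exc, mem_Icc]
      refine ⟨⟨hpp.one_le, hpP⟩, hpp.odd_of_ne_two (by omega), fun hcon => hJQ (hcon ?_)⟩
      intro q hq hqp
      rw [(Nat.prime_dvd_prime_iff_eq hq hpp).1 hqp]
      omega
  have hcard : (S.card : ℝ) ≤ 2 ^ (M + r + 1) + ∑ J ∈ T,
      ((Exc (fun J m => Rgh (J + r) m → Q J m) J P).card : ℝ) := by
    have h1 := (card_le_card hsub).trans (card_union_le _ _)
    rw [Nat.card_Icc, Nat.add_sub_cancel] at h1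
    have h2 : (T.biUnion fun J => Exc (fun J m => Rgh (J + r) m → Q J m) J P).card ≤
        ∑ J ∈ T, (Exc (fun J m => Rgh (J + r) m → Q J m) J P).card := card_biUnion_le
    have h3 := h1.trans (Nat.add_le_add_left h2 _)
    exact_mod_cast h3
  have hterm : ∀ J ∈ T, ((Exc (fun J m => Rgh (J + r) m → Q J m) J P).card : ℝ) ≤
      max C₁ 0 * P * Z ^ (-B) * (1 / 2 : ℝ) ^ J := by
    intro J hJ
    rw [hT, mem_filter] at hJ
    obtain ⟨-, hJ1, hJ2⟩ := hJ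
    have h1 : 2 ^ (K₁ * J) ≤ P :=
      (Nat.pow_le_pow_right (by norm_num) (Nat.mul_le_mul_right J (le_max_left K₁ _))).trans hJ2
    have h2 := hC J P h1
    have h3 : (2 : ℝ) ^ (-((B + 1) * J)) = ((2 : ℝ) ^ J) ^ (-B) * (1 / 2 : ℝ) ^ J := by
      rw [← Real.rpow_natCast 2 J, ← Real.rpow_mul (by norm_num), one_div, inv_pow, ← Real.rpow_natCast 2 J,
        ← Real.rpow_neg (by norm_num), ← Real.rpow_add (by norm_num)]
      congr 1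
      ring
    have h4 : ((2 : ℝ) ^ J) ^ (-B) ≤ Z ^ (-B) := Real.rpow_le_rpow_of_nonpos hZ0 hJ1 (by linarith)
    calc ((Exc (fun J m => Rgh (J + r) m → Q J m) J P).card : ℝ) ≤ C₁ * P * (2 : ℝ) ^ (-((B + 1) * J)) := h2
      _ ≤ max C₁ 0 * P * (2 : ℝ) ^ (-((B + 1) * J)) :=
          mul_le_mul_of_nonneg_right (mul_le_mul_of_nonneg_right (le_max_left _ _) (Nat.cast_nonneg P))
            (Real.rpow_nonneg (by norm_num) _)
      _ = max C₁ 0 * P * (((2 : ℝ) ^ J) ^ (-B) * (1 / 2 : ℝ) ^ J) := by rw [h3]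
      _ ≤ max C₁ 0 * P * (Z ^ (-B) * (1 / 2 : ℝ) ^ J) := by gcongr
      _ = _ := by ring
  have hsum : ∑ J ∈ T, ((Exc (fun J m => Rgh (J + r) m → Q J m) J P).card : ℝ) ≤
      2 * max C₁ 0 * P * Z ^ (-B) := by
    have h1 : ∑ J ∈ T, (1 / 2 : ℝ) ^ J ≤ 2 / 1 := geo_set T 1 one_pos fun J hJ => by
      rw [hT, mem_filter] at hJ
      exact hZ.trans hJ.2.1
    calc ∑ J ∈ T, ((Exc (fun J m => Rgh (J + r) m → Q J m) J P).card : ℝ) ≤
        ∑ J ∈ T, max C₁ 0 * P * Z ^ (-B) * (1 / 2 : ℝ) ^ J := sum_le_sum hterm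
      _ = max C₁ 0 * P * Z ^ (-B) * ∑ J ∈ T, (1 / 2 : ℝ) ^ J := by rw [← mul_sum]
      _ ≤ max C₁ 0 * P * Z ^ (-B) * (2 / 1) := by gcongr
      _ = _ := by ring
  have hlast : (2 : ℝ) ^ M ≤ P * Z ^ (-B) := by
    have h1 : ((2 : ℝ) ^ M) ^ (-B) ≤ Z ^ (-B) := Real.rpow_le_rpow_of_nonpos hZ0 hM2.1 (by linarith)
    have h2 : ((2 : ℝ) ^ M) ^ (B + 1) ≤ P := by
      have h3 : ((2 : ℝ) ^ M) ^ (B + 1) ≤ ((2 : ℝ) ^ M) ^ (K : ℝ) := by
        refine Real.rpow_le_rpow_of_exponent_le (one_le_pow₀ (by norm_num)) ?_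
        have h4 : B ≤ ⌈B⌉₊ := Nat.le_ceil B
        have h5 : ((⌈B⌉₊ + 1 : ℕ) : ℝ) ≤ K := by exact_mod_cast le_max_right K₁ (⌈B⌉₊ + 1)
        push_cast at h5
        linarith
      rw [Real.rpow_natCast, ← pow_mul, mul_comm M K] at h3
      refine h3.trans ?_
      exact_mod_cast hM2.2
    have h2M : (0 : ℝ) < (2 : ℝ) ^ M := by positivity
    calc (2 : ℝ) ^ M = ((2 : ℝ) ^ M) ^ (B + 1) * ((2 : ℝ) ^ M) ^ (-B) := by
          rw [← Real.rpow_add h2M, add_right_comm, add_neg_cancel, zero_add, Real.rpow_one]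
      _ ≤ P * Z ^ (-B) := mul_le_mul h2 h1 (by positivity) (Nat.cast_nonneg P)
  calc (S.card : ℝ) ≤ 2 ^ (M + r + 1) + 2 * max C₁ 0 * P * Z ^ (-B) := hcard.trans (by linarith)
    _ = 2 ^ (r + 1) * (2 : ℝ) ^ M + 2 * max C₁ 0 * P * Z ^ (-B) := by ring
    _ ≤ 2 ^ (r + 1) * (P * Z ^ (-B)) + 2 * max C₁ 0 * P * Z ^ (-B) := by gcongr
    _ = (2 * max C₁ 0 + 2 ^ (r + 1)) * P * Z ^ (-B) := by ring

end Pool.Agent.Q255.L2
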