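import Pool.Agent.Q68.L2.AZ2
import Pool.Agent.Q68.L2.DET2
import Pool.Agent.Q68.L2.Small
import Pool.Agent.Q237.L2.Yb
import Pool.Agent.Q237.L2.Bon
import Pool.Agent.Q299.L2.Lg3
import Pool.Agent.Q299.L2.Asm
import Pool.Agent.Q255.EP.Fin
import Pool.Agent.Q14.EP.Fin

/-!
# Cancellation to the square root of the variance, for all laws of small information: assembly
-/

set_option autoImplicit false

namespace Pool.Agent.Q255.L2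

open Filter Topology MeasureTheory Pool.Agent.Q255.IC Pool.Agent.Q255.IR Pool.Agent.Q255.EP
open scoped ENNReal

theorem t_ENG2 : S_ENG2 :=
  Pool.Agent.Q299.L2.eng2 (Pool.Agent.Q68.L2.small Pool.Agent.Q237.L2.bon)
    (Pool.Agent.Q299.L2.large Pool.Agent.Q68.L2.az2 Pool.Agent.Q68.L2.det2 Pool.Agent.Q237.L2.yb)

theorem IL0_iff {ν : Measure (ℕ → Bool)} :
    IL ν 0 ↔ ∀ ε : ℝ, 0 < ε → ∀ᶠ x : ℕ in atTop, D ν (Nat.primeCounting x) ≤ (x : ℝ) ^ ε := by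
  unfold IL
  simp only [zero_add]

/-- finite changes for laws of information `x^o(1)` -/
theorem ae_fin0 {P : (ℕ → Bool) → Prop}
    (h : ∀ (ν : Measure (ℕ → Bool)) [IsProbabilityMeasure ν],
      (∀ ε : ℝ, 0 < ε → ∀ᶠ x : ℕ in atTop, D ν (Nat.primeCounting x) ≤ (x : ℝ) ^ ε) → ∀ᵐ ω ∂ν, P ω)
    (ν : Measure (ℕ → Bool)) [IsProbabilityMeasure ν]
    (hν : ∀ ε : ℝ, 0 < ε → ∀ᶠ x : ℕ in atTop, D ν (Nat.primeCounting x) ≤ (x : ℝ) ^ ε) :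
    ∀ᵐ ω ∂ν, ∀ ω' : ℕ → Bool, {k | ω' k ≠ ω k}.Finite → P ω' :=
  ae_fin Pool.Agent.Q14.EP.t_FIN le_rfl (fun ν' _ hν' => h ν' (IL0_iff.1 hν')) ν (IL0_iff.2 hν)

end Pool.Agent.Q255.L2
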