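import Pool.Agent.Q255.EP.Stm

/-!
# Square root cancellation in terms of the `ℓ²` norm, for all laws of small information: statements

`f = cm ω` is the completely multiplicative function with the signs `f(p_k) = sg ω k`, `ν` an arbitrary law of `ω`,
`D ν n` the relative entropy of the first `n` signs.  `Pool.Agent.Q255.EP.S_ENG` bounds `∑ w(m) f(m)` by the sup norm of
`w` and the length of its support.  Here: if `D ν π(x) ≤ x^(δ + o(1))` then almost surely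
`|∑ w(m) f(m)| ≤ C 2^((δ+ε) J) ‖w‖` for ALL functions `w` of sets `W_J` of at most `exp (A (J+1))` functions, `w = 0` beyond
`2^J`, with the variance `‖w‖² = ∑_s (∑_r |w(r² s)|)²` of the sum for fair signs.  The small primes `p ≤ J^C` are treated
by high moments (hypercontractivity), the large ones by Azuma's inequality.
-/

set_option autoImplicit false

namespace Pool.Agent.Q255.L2

open Filter Topology MeasureTheory Pool.Agent.Q255.IC Pool.Agent.Q255.IR Pool.Agent.Q255.EP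
open scoped ENNReal

/-- `∑_s (∑_r |w(r² s)|)²`, `s` squarefree -/
noncomputable def nn (X : ℕ) (w : ℕ → ℝ) : ℝ :=
  ∑ s ∈ (Finset.Icc 1 X).filter Squarefree, (∑ r ∈ Finset.Icc 1 X, |w (r ^ 2 * s)|) ^ 2

/-- the squarefree numbers `1 ≤ b ≤ X` all of whose prime factors are at least `p_k` -/
noncomputable def rg (k X : ℕ) : Finset ℕ :=
  (Finset.Icc 1 X).filter fun b => Squarefree b ∧ ∀ p ∈ b.primeFactors, pr k ≤ p

/-- `Z(w) = ∑_{b rough} Sq(w(b ·))²`: it depends on the first `k` signs -/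
noncomputable def Zq (ω : ℕ → Bool) (k X : ℕ) (w : ℕ → ℝ) : ℝ :=
  ∑ b ∈ rg k X, Sq ω k X (fun m => w (b * m)) ^ 2

/-- `Y_0(w) = Sq(w)²`, `Y_{j+1}(w) = Y_j(w) + κ Y_j(w(p ·))` with the prime `p` of index `k0 + j` -/
noncomputable def Yq (ω : ℕ → Bool) (κ : ℕ → ℝ) (X k0 : ℕ) : ℕ → (ℕ → ℝ) → ℝ
  | 0, w => Sq ω k0 X w ^ 2
  | j + 1, w => Yq ω κ X k0 j w + κ (k0 + j) * Yq ω κ X k0 j (dil (k0 + j) w)

/-! ## Azuma's inequality -/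

/-- Azuma's inequality with predictable coefficients whose sum of squares is at most `1`, as a count of words.

Proof: for real `t`, `∑_s exp (t ∑_{a ≤ j < b} s_j c_j - t² ∑_{a ≤ j < b} c_j²/2) ≤ 2^n` by induction on `b` (average over the
sign `j`: `cosh x ≤ exp (x²/2)`; model: `Pool.Agent.Q190.EP.az` in Pool/Agent/Q190/EP/AZ.lean, the case of bounds `|c_j| ≤ d_j`),
so `∑_s exp (t ∑ s_j c_j) ≤ 2^n exp (t²/2)`; `t = √(2L)`, Markov for both signs.  `W` = the words `s` such that some `ω` which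
extends `s` is in the set (it only depends on the first `b ≤ n` signs). -/
def S_AZ2 : Prop :=
  ∀ (n a b : ℕ) (c : ℕ → (ℕ → Bool) → ℝ) (L : ℝ), b ≤ n → 0 ≤ L →
    (∀ ω, ∑ j ∈ Finset.Ico a b, c j ω ^ 2 ≤ 1) →
    (∀ (j : ℕ) (ω ω' : ℕ → Bool), (∀ i < j, ω i = ω' i) → c j ω = c j ω') →
    ∃ W : Finset (Fin n → Bool), (W.card : ℝ) ≤ 2 * 2 ^ n * Real.exp (-L) ∧
      {ω : ℕ → Bool | √(2 * L) < |∑ j ∈ Finset.Ico a b, sg ω j * c j ω|} ⊆ cyl W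

/-! ## The deterministic part -/

/-- For all `w ∈ T`, all blocks of indices `[N i, N (i+1))`, `i < J`, and all `k` of the block the truncated
predictable sums are at most the bound of Azuma's inequality; `N 0 = k0`. -/
def Good2 (ω : ℕ → Bool) (X : ℕ) (κ : ℕ → ℝ) (k0 : ℕ) (N : ℕ → ℕ) (L : ℕ → ℝ) (J : ℕ) (T : Set (ℕ → ℝ)) : Prop :=
  ∀ w ∈ T, ∀ i < J, ∀ k, N i ≤ k → k ≤ N (i + 1) →
    |∑ j ∈ Finset.Ico (N i) k, sg ω j *
        trunc (√(2 * Yq ω κ X k0 (j - k0) (dil j w))) (Sq ω j X (dil j w))| ≤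
      √(2 * L i * ∑ j ∈ Finset.Ico (N i) k, 2 * Yq ω κ X k0 (j - k0) (dil j w))

/-- If `∑ 4 L_i/κ'_i ≤ 1` then in the good event `|Sq w|² ≤ 2 Yq w` for all `w ∈ T`.

Proof: exactly `Pool.Agent.Q190.EP.det` (Pool/Agent/Q190/EP/DET.lean), started at `k0` instead of `0`: strong induction
on `k ≥ k0` for all `w ∈ T`; `Sq ω k X w = Sq ω k0 X w + ∑_{k0 ≤ j < k} sg ω j Sq ω j X (dil j w)` (`Pool.Agent.Q13.EP.t_REC`);
nothing is truncated by induction; `|Sq| ≤ |Sq_{k0}| + ∑_i √(4 L_i/κ'_i · γ_i)`, `γ_i = ∑_{j in block i, j < k} κ_j Yq (j-k0) (dil j w)`;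
Cauchy-Schwarz; `Yq (k-k0) w = Sq_{k0}² + ∑_{k0 ≤ j < k} κ_j Yq (j-k0) (dil j w)`. -/
def S_DET2 : Prop :=
  ∀ (ω : ℕ → Bool) (X k0 : ℕ) (κ κ' : ℕ → ℝ) (N : ℕ → ℕ) (L : ℕ → ℝ) (J : ℕ) (T : Set (ℕ → ℝ)), 1 ≤ X →
    N 0 = k0 → Monotone N → (∀ i, 0 < κ' i) → (∀ i, 0 ≤ L i) →
    (∀ i k, N i ≤ k → k < N (i + 1) → κ k = κ' i) → (∀ k, 0 ≤ κ k) →
    ∑ i ∈ Finset.range J, 4 * L i / κ' i ≤ 1 →
    (∀ w ∈ T, ∀ r : ℕ, 1 ≤ r → (fun m => w (r * m)) ∈ T) → (∀ w ∈ T, ∀ m, X < m → w m = 0) →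
    Good2 ω X κ k0 N L J T →
      ∀ w ∈ T, ∀ k, k0 ≤ k → k ≤ N J → Sq ω k X w ^ 2 ≤ 2 * Yq ω κ X k0 (k - k0) w

/-- `Yq` is nonnegative, depends on the first `k0` signs only and is at most `X^θ Zq` if `κ(p) ≤ p^θ`.

Proof: by induction on `j`, `Yq ω κ X k0 j w = ∑_b (∏_{p | b} κ(p)) Sq ω k0 X (w(b ·))²` over the squarefree `b ≤ X` whose
prime factors have an index in `[k0, k0 + j)` (for `b > X` the function `w(b ·)` vanishes at all `m ≥ 1`, as `w = 0` beyond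
`X`; alternatively prove only `≤`); `∏_{p | b} κ(p) ≤ b^θ ≤ X^θ`.  Dependence: `Sq ω k0 X` depends on the first `k0` signs
(`Pool.Agent.Q13.EP.t_REC`). -/
def S_YB : Prop :=
  ∀ (ω : ℕ → Bool) (κ : ℕ → ℝ) (X k0 j : ℕ) (w : ℕ → ℝ), 1 ≤ X → (∀ k, 0 ≤ κ k) →
    0 ≤ Yq ω κ X k0 j w ∧
    (∀ ω' : ℕ → Bool, (∀ i < k0, ω i = ω' i) → Yq ω κ X k0 j w = Yq ω' κ X k0 j w) ∧
    ((∀ m, X < m → w m = 0) → ∀ θ : ℝ, 0 ≤ θ → (∀ k, k0 ≤ k → κ k ≤ (pr k : ℝ) ^ θ) →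
      Yq ω κ X k0 j w ≤ (X : ℝ) ^ θ * Zq ω k0 X w)

/-! ## Hypercontractivity -/

/-- Tail of `Zq` for fair signs, as a count of words.

Proof: for `b ∈ rg k X` let `S_b = Sq ω k X (w(b ·))`, `M_b = ∑_{m ∈ sm k X} (2q)^(number of primes of m) w(bm)²`.
Hypercontractivity: the mean over the words of `S_b^(2q)` is at most `M_b^q` (`Pool.Agent.Q163.HC.bonami` in
Pool/Agent/Q163/HC/Bon.lean is this inequality for the product measure and `(2q-1)` instead of `2q`; the squarefree `m`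
correspond to sets of indices of primes; or repeat its short induction for words; if `M_b = 0` then `S_b = 0`).
Jensen (`M = ∑ M_b > 0`): `(∑_b S_b²)^q ≤ M^(q-1) ∑_{M_b > 0} M_b (S_b²/M_b)^q` (`inner_le_nnorm_mul_nnorm` or
`Real.pow_arith_mean_le_arith_mean_pow`), so the mean of `(∑_b S_b²)^q` is at most `M^q`; Markov. -/
def S_BON : Prop :=
  ∀ (q k X : ℕ) (w : ℕ → ℝ) (l : ℝ), 1 ≤ q → 0 < l →
    ∃ U : Finset (Fin k → Bool), (U.card : ℝ) ≤ 2 ^ k * (1 / l) ^ q ∧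
      {ω : ℕ → Bool | l * ∑ b ∈ rg k X, ∑ m ∈ sm k X, (2 * (q : ℝ)) ^ m.primeFactors.card * w (b * m) ^ 2 <
        Zq ω k X w} ⊆ cyl U

/-! ## The small primes -/

/-- the primes up to `2^(ex α J)` are small at the level `J`: `J^(1/α) ≤ 2^(ex α J) ≤ 2 (2J)^(1/α)`, and `ex α J` is the same
for all `J ∈ [2^i, 2^(i+1))` -/
noncomputable def ex (α : ℝ) (J : ℕ) : ℕ := ⌈((Nat.log 2 J : ℝ) + 1) / α⌉₊

/-- The small primes, almost surely.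

Proof.  `α = δ + ε`.  For `J ∈ [2^i, 2^(i+1))` the number `k = π(2^(ex α J))` is the same, `k = k_i`, `2^(ex α J) ≤
2 · 2^((i+1)/α)`.  `S_BON` with a natural number `q`, `l = 2^(ε J/2)`, and `(2q)^(number of primes of m) ≤ C m^(ε/2) ≤ C 2^(ε J/2)`
(`Pool.Agent.Q163.HC.pow_omega`; replace `l` by `l/C`): the set of the words of length `k_i` for which the assertion
fails for some `J ∈ [2^i, 2^(i+1))` and some `w ∈ W J` has at most `∑_J exp (A (J+1)) 2^k (C 2^(-ε J/2))^q ≤ 2^k exp (-2^i)`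
elements if `q` is large (`q ε log 2 / 2 ≥ A + 3`, say) and `i ≥ i₀`.  `S_DPI` (`Pool.Agent.Q255.IR`; see
`Pool.Agent.Q190.EP.dpi_use` in Pool/Agent/Q190/EP/Eng1.lean): the probability of this set is at most
`(D ν k_i + log 2)/2^i`, and `D ν k_i ≤ C₁ (2^(ex α J))^(δ + ε/2) ≤ C₂ 2^((i+1) (δ+ε/2)/(δ+ε))`
(`Pool.Agent.Q190.EP.D_bound`), which is summable over `i`.  Borel-Cantelli. -/
def S_SMALL : Prop :=
  ∀ (ν : Measure (ℕ → Bool)) [IsProbabilityMeasure ν] (δ : ℝ), 0 ≤ δ →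
    (∀ ε : ℝ, 0 < ε → ∀ᶠ x : ℕ in atTop, D ν (Nat.primeCounting x) ≤ (x : ℝ) ^ (δ + ε)) →
    ∀ (W : ℕ → Finset (ℕ → ℝ)) (A : ℝ), (∀ J, ((W J).card : ℝ) ≤ Real.exp (A * ((J : ℝ) + 1))) →
      ∀ ε : ℝ, 0 < ε → ∀ᵐ ω ∂ν, ∀ᶠ J : ℕ in atTop, ∀ w ∈ W J,
        Zq ω (Nat.primeCounting (2 ^ ex (δ + ε) J)) (2 ^ J) w ≤ (2 : ℝ) ^ (ε * J) *
          ∑ b ∈ rg (Nat.primeCounting (2 ^ ex (δ + ε) J)) (2 ^ J),
            ∑ m ∈ sm (Nat.primeCounting (2 ^ ex (δ + ε) J)) (2 ^ J), w (b * m) ^ 2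

/-! ## The large primes -/

/-- The large primes, almost surely.

Proof.  Model: `Pool.Agent.Q190.EP.eng` (Pool/Agent/Q190/EP/Eng1.lean, Eng2.lean, Eng3.lean).  `X = 2^J`, `e = ex (δ+ε) J`,
`k0 = π(2^e)`, `N i = π(2^(e+i))`, `i < J - e` (`e ≤ J` for large `J`), `T = {m ↦ w(r m) : w ∈ W_J, r ≥ 1}`,
`L i = 2 · 2^((e+i+1)(δ+ε)) (J+1)^(1+ε)`, `κ' i = C_ε 2^((e+i+1) ε) L i`, with `∑ 4/(C_ε 2^((i+1)ε)) ≤ 1`
(so these are the blocks and the numbers `LL`, `KK` of Eng1.lean for the blocks `≥ e`).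
Probability that `Good2` fails: for `w ∈ T` and `k ∈ [N i, N (i+1)]` apply `S_AZ2` to the coefficients
`c j ω = trunc (√(2 Yq ω κ X k0 (j-k0) (dil j w))) (Sq ω j X (dil j w)) / √(∑_{N i ≤ j' < k} 2 Yq ω κ X k0 (j'-k0) (dil j' w))`
for `N i ≤ j < k` (`0` for the other `j`; they are predictable: the denominator depends on the first `k0 ≤ N i` signs, `S_YB`);
if the denominator is `0` all the truncated values are `0`.  As in Eng1, Eng2 the probability is at most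
`C₁ 2^(-(e+i+1) ε/2) (J+1)^(-(1+ε))`, summable.  So almost surely `Good2` holds for all large `J`, and `S_DET2` gives
`Sq² ≤ 2 Yq` for `k = N (J - e) = π(2^J)`.  Finally, for `p > 2^e ≥ J^(1/(δ+ε))`, `2^l < p ≤ 2^(l+1)`:
`κ(p) ≤ C' (J+1)^(1+ε) p^(δ+2ε) ≤ 4 C' p^((δ+ε)(1+ε) + δ + 2ε) ≤ p^(2δ + 7ε)` for large `J` (`δ, ε ≤ 1`; `KK_le` in Eng1.lean), so
`S_YB` with `θ = 2δ + 7ε` gives the assertion (`2 ≤ 2^(ε J)`). -/
def S_LARGE : Prop :=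
  ∀ (ν : Measure (ℕ → Bool)) [IsProbabilityMeasure ν] (δ : ℝ), 0 ≤ δ → δ ≤ 1 →
    (∀ ε : ℝ, 0 < ε → ∀ᶠ x : ℕ in atTop, D ν (Nat.primeCounting x) ≤ (x : ℝ) ^ (δ + ε)) →
    ∀ (W : ℕ → Finset (ℕ → ℝ)) (A : ℝ), (∀ J, ∀ w ∈ W J, ∀ m, 2 ^ J < m → w m = 0) →
      (∀ J, ((W J).card : ℝ) ≤ Real.exp (A * ((J : ℝ) + 1))) →
      ∀ ε : ℝ, 0 < ε → ε ≤ 1 → ∀ᵐ ω ∂ν, ∀ᶠ J : ℕ in atTop, ∀ w ∈ W J,
        Sq ω (Nat.primeCounting (2 ^ J)) (2 ^ J) w ^ 2 ≤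
          (2 : ℝ) ^ ((2 * δ + 8 * ε) * J) * Zq ω (Nat.primeCounting (2 ^ ex (δ + ε) J)) (2 ^ J) w

/-! ## The main theorem -/

/-- **Cancellation to the square root of the variance, for all laws of small information.**

Proof.  For `w ∈ W_J`, `X = 2^J`, let `v(s) = ∑_{1 ≤ r ≤ X} w(r² s)` for `1 ≤ s`, `v 0 = 0` (the sets of these `v` satisfy the same
conditions).  `∑_{n ≤ X} w(n) f(n) = Sq ω π(X) X v` (`Pool.Agent.Q13.EP.t_FULL`).  `S_LARGE` and `S_SMALL` for the `v`: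
almost surely for large `J`: `(Sq v)² ≤ 2^((2δ+8ε)J) 2^(εJ) ∑_{b ∈ rg} ∑_{m ∈ sm} v(bm)²`, and the last sum is at most `nn X w`:
`(b, m) ↦ b m` is injective (`b` rough, `m` smooth), `b m` is squarefree, `v(bm) = 0` if `b m > X`, `|v(s)| ≤ ∑_r |w(r² s)|`.
So `|∑ w f| ≤ 2^((δ + 9ε/2) J) √nn`.  For the finitely many other `J`: `|∑ w f| ≤ ∑_s ∑_r |w(r² s)| ≤ √X √nn`
(every `n ≤ X` is `r² s`).  All `ε = 1/(j+1)` at once. -/
def S_ENG2 : Prop :=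
  ∀ (ν : Measure (ℕ → Bool)) [IsProbabilityMeasure ν] (δ : ℝ), 0 ≤ δ → δ ≤ 1 →
    (∀ ε : ℝ, 0 < ε → ∀ᶠ x : ℕ in atTop, D ν (Nat.primeCounting x) ≤ (x : ℝ) ^ (δ + ε)) →
    ∀ (W : ℕ → Finset (ℕ → ℝ)) (A : ℝ), (∀ J, ∀ w ∈ W J, ∀ m, 2 ^ J < m → w m = 0) →
      (∀ J, ((W J).card : ℝ) ≤ Real.exp (A * ((J : ℝ) + 1))) →
      ∀ᵐ ω ∂ν, ∀ ε : ℝ, 0 < ε → ∃ C : ℝ, ∀ J, ∀ w ∈ W J,
        |∑ m ∈ Finset.Icc 1 (2 ^ J), w m * cm ω m| ≤ C * (2 : ℝ) ^ ((δ + ε) * J) * √(nn (2 ^ J) w)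

end Pool.Agent.Q255.L2
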