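import Pool.Agent.Q255.L2.Stm
import Pool.Agent.Q255.EP.Stm2
import Pool.Agent.Q152.QT.Diag
import Pool.Agent.Q163.CL.Dist

/-!
# The Gaussian law of Good and Churchhouse at small information: statements
-/

set_option autoImplicit false

namespace Pool.Agent.Q255.L2

open Filter Topology MeasureTheory Finset
open Pool.Agent.Q255.IC Pool.Agent.Q255.IR Pool.Agent.Q255.EP
open Pool.Agent.Q152.QT (Bt at' Qk Sf gm)
open Pool.Agent.Q163.GC (W Mf)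
open Pool.Agent.Y293.SF (mu)
open scoped ENNReal

/-- completely multiplicative with values `1, -1` -/
def Sgn (χ : ℕ → ℝ) : Prop :=
  (∀ m n, 1 ≤ m → 1 ≤ n → χ (m * n) = χ m * χ n) ∧ ∀ n, 1 ≤ n → χ n = 1 ∨ χ n = -1

/-- `g μ χ` -/
noncomputable def fg (g χ : ℕ → ℝ) (n : ℕ) : ℝ := g n * mu n * χ n

/-- The coefficient of `χ(n)` in the `k`-th moment of the window sums of `g μ χ` (`n` not a square). -/
noncomputable def co (g : ℕ → ℝ) (k N h n : ℕ) : ℝ :=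
  (∑ x ∈ Ico N (2 * N), ∑ t ∈ (Bt k h x).filter (fun t => ∏ i, t i = n), at' g t) / (N * √(h : ℝ) ^ k)

/-- The moments are those of the normal law up to a linear form in the values of `χ`.

Proof: as `Pool.Agent.Q152.QT.mom` (Pool/Agent/Q152/QT/Mom.lean) and its lemmas `Wm_eq`, `Wm_pow`, `Wm_mean`
(Pool/Agent/Q152/QT/Diag.lean), with `χ` in place of the Jacobi symbol (there `Cop` is only used for `(r²/m) = 1`; here
`χ (r²) = 1`).  `W f x h = ∑_{n ∈ Ioc x (x+h)} f n` (see `Pool.Agent.Q152.QT.W_eq`).  The inputs `S_Cnt`, `S_Odd`, `S_Mean` of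
`mom` are proved: see the first lines of the proof of `Pool.Agent.Q152.QT.law_real` (Pool/Agent/Q152/QT/Final.lean).
The sum over the tuples of non-square product, divided by `N √h^k`, is `∑_n co g k N h n χ n`, all products are at most
`(3N)^k` (`Pool.Agent.Q152.QT.prod_le`, `prod_pos'`).  `√(6/π² h)^k = √(6/π²)^k √h^k`. -/
def S_GLA : Prop :=
  ∀ (k : ℕ) (ε : ℝ), 0 < ε → ∃ c C : ℝ, 0 < c ∧ 0 ≤ C ∧ ∀ (g χ : ℕ → ℝ) (N h X : ℕ),
    (∀ n, g n = 1 ∨ g n = -1) → Sgn χ → 1 ≤ N → (N : ℝ) ^ ε ≤ h → (h : ℝ) ≤ (N : ℝ) ^ (1 - ε) → (3 * N) ^ k ≤ X →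
      |(∑ x ∈ Ico N (2 * N), W (fg g χ) x h ^ k) / (N * √(h : ℝ) ^ k) - gm k * √(6 / Real.pi ^ 2) ^ k| ≤
        C * (N : ℝ) ^ (-c) + |∑ n ∈ Icc 1 X, co g k N h n * χ n|

/-- The norm of the coefficients.

Proof: `|at'| ≤ 1` (`Pool.Agent.Q152.QT.at_abs`), so `∑_r |co (r² s)|` is at most the number of the pairs `(x, t)`, `x ∈ [N, 2N)`,
`t ∈ Bt k h x`, with `∏ t = r² s` for some `r`, divided by `N √h^k` (`s` squarefree: for given `t` at most one `s` and one `r`);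
the square is a number of pairs of pairs `(x, t)`, `(y, t')` with the same `s`, then `∏ t ∏ t'` is a square; so
`nn X (co g k N h) ≤ (∑_x ∑_y Qk k h x y)/(N² h^k)`, and this is at most `C N^(-c)` by
`Pool.Agent.Q152.QT.S_Pairs`, which is proved: see the first lines of the proof of `Pool.Agent.Q152.QT.law_real`
(Pool/Agent/Q152/QT/Final.lean). -/
def S_GLB : Prop :=
  ∀ (k : ℕ) (ε : ℝ), 0 < ε → ∃ c C : ℝ, 0 < c ∧ 0 ≤ C ∧ ∀ (g : ℕ → ℝ) (N h X : ℕ),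
    (∀ n, g n = 1 ∨ g n = -1) → 1 ≤ N → h ≤ N →
      (∀ n, (3 * N) ^ k < n → co g k N h n = 0) ∧
      ((N : ℝ) ^ ε ≤ h → (h : ℝ) ≤ (N : ℝ) ^ (1 - ε) → nn X (co g k N h) ≤ C * (N : ℝ) ^ (-c))

/-- All moments for all windows, almost surely, for all laws of information `x^o(1)`.

Proof.  Fix `k ≥ 1` (`k = 0` is trivial: `gm 0 = 1`) and `ε = 1/(j+1)`.  `S_ENG2` with `δ = 0` and
`W_J = {co g k N h : 1 ≤ N, 1 ≤ h ≤ N, (3 N)^k ≤ 2^J}` (at most `4^J` functions, `0` beyond `2^J` by `S_GLB`).  For `N`, `h` as in the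
statement let `2^(J-1) < (3N)^k ≤ 2^J`; `cm ω` is `Sgn`; with `ε' = c/(8k)` (`c` of `S_GLB`):
`|∑ co cm| ≤ C 2^(ε' J) √(C N^(-c)) ≤ C' N^(kε' - c/2)`, `2^J ≤ 2 (3N)^k`.  `S_GLA` with `X = 2^J`. -/
def S_GLC : Prop :=
  ∀ (ν : Measure (ℕ → Bool)) [IsProbabilityMeasure ν],
    (∀ ε : ℝ, 0 < ε → ∀ᶠ x : ℕ in atTop, D ν (Nat.primeCounting x) ≤ (x : ℝ) ^ ε) →
    ∀ g : ℕ → ℝ, (∀ n, g n = 1 ∨ g n = -1) → ∀ᵐ ω ∂ν, ∀ (k : ℕ) (ε : ℝ), 0 < ε →
      ∃ c C : ℝ, 0 < c ∧ 0 ≤ C ∧ ∀ N h : ℕ, 1 ≤ N → (N : ℝ) ^ ε ≤ h → (h : ℝ) ≤ (N : ℝ) ^ (1 - ε) →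
        |(∑ x ∈ Ico N (2 * N), W (fg g (cm ω)) x h ^ k) / (N * √(h : ℝ) ^ k) -
          gm k * √(6 / Real.pi ^ 2) ^ k| ≤ C * (N : ℝ) ^ (-c)

/-- the statement of the problem for a function `f` in place of the Moebius function: for every
`ε ∈ (0, 1/2)` and every `H` with `X ^ ε < H X < X ^ (1 - ε)`, the proportion of the `x ∈ [X, 2X]` for which
the sum of `f` over `|n - x| < H / 2`, divided by `√(H/ζ(2))`, is at most `t` tends to the distribution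
function of the standard normal law at `t` -/
def GaussianLaw (f : ℕ → ℝ) : Prop :=
  ∀ ε : ℝ, 0 < ε → ε < 1 / 2 →
    ∀ H : ℝ → ℝ,
      (∀ᶠ X in Filter.atTop, X ^ ε < H X ∧ H X < X ^ (1 - ε)) →
      ∀ t : ℝ,
        Filter.Tendsto
          (fun X : ℝ =>
            (MeasureTheory.volume
              {x : ℝ | x ∈ Set.Icc X (2 * X) ∧
                (∑ n ∈ (Finset.range (⌊x + H X⌋₊ + 1)).filter
                    (fun n : ℕ => |(n : ℝ) - x| < H X / 2), f n)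
                  / Real.sqrt (H X / (Real.pi ^ 2 / 6)) ≤ t}).toReal / X)
          Filter.atTop
          (nhds (ProbabilityTheory.cdf (ProbabilityTheory.gaussianReal 0 1) t))

/-- From the moments over integer windows to the law.

Proof: for given `ε`, `δ`, moments up to `2n` with `4/√n ≤ δ/2` and `Q282MM.emp` give the distribution function over integer
windows up to `δ` for all `N ≥ N₀` and all `h`, `N^ε ≤ h ≤ N^(1-ε)` (last part of the proof of `Pool.Agent.Q152.QT.law_int`,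
Pool/Agent/Q152/QT/LawInt.lean; `Fc` in Pool/Agent/Q152/QT/StmU.lean), then `Pool.Agent.Q152.QT.to_real`
(Pool/Agent/Q152/QT/ToReal.lean) for real centres and lengths; the sum in `GaussianLaw` is `Mf f x H`
(see `M_eq`, `proportion_eq`, `close_of` in Pool/Agent/Results/MP_4f18df_nt/QuadraticTwists.lean). -/
def S_GLD : Prop :=
  ∀ f : ℕ → ℝ,
    (∀ (k : ℕ) (ε : ℝ), 0 < ε → ∀ η : ℝ, 0 < η → ∃ N₀ : ℕ, ∀ N h : ℕ, N₀ ≤ N → (N : ℝ) ^ ε ≤ h →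
      (h : ℝ) ≤ (N : ℝ) ^ (1 - ε) →
        |(∑ x ∈ Ico N (2 * N), W f x h ^ k) / (N * √(h : ℝ) ^ k) - gm k * √(6 / Real.pi ^ 2) ^ k| ≤ η) →
    GaussianLaw f

/-! ## The law fails at information `x^δ` -/

/-- Independent signs with means `-p^(β-1)`: large window sums with positive probability.

Proof (Paley and Zygmund).  `S(x) = Mf (μ f) x H`, `H = X^θ`.  `E μ(n) f(n) = μ(n)² n^(β-1)`; `E μ(m)f(m) μ(n)f(n) =
μ(m)² μ(n)² (mn/(m,n)²)^(β-1)`.  First moment over `ω` and `x ∈ [X, 2X]`: at least `H (3X)^(β-1)` times the number of the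
squarefree `n ∈ [5X/4, 7X/4]`, hence `≥ c₁ X · H X^(β-1)`.  Second moment: at most
`∑_{m, n ∈ [X/2, 3X], |m-n| < H} H (mn)^(β-1) (m,n)^(2-2β) ≤ C H X^(2β-2) ∑_{g < H} g^(2-2β) (3X/g) (2H/g) + C H X`
(pairs `m ≠ n` divisible by `g`, and the diagonal), `∑ g^(-2β) < ∞`, so at most `C X (H² X^(2β-2) + H) ≤ C' X H² X^(2β-2)` since
`θ > 2 - 2β`.  With `m₁ = c₁ H X^(β-1)`: the measure of the `(ω, x)` with `S(x) > m₁/2` is at least
`(c₁ X H X^(β-1)/2)²/(C' X H² X^(2β-2)) = c X` (Cauchy-Schwarz), and `m₁/2 ≥ T √H` for large `X`.  `c` does not depend on `T`.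
(The inner measure is a measurable function of `ω`: it depends on finitely many signs.) -/
def S_PZ : Prop :=
  ∀ (ν : Measure (ℕ → Bool)) [IsProbabilityMeasure ν] (β θ : ℝ), 1 / 2 < β → β < 1 → 2 - 2 * β < θ → θ < 1 →
    (∀ s : Finset ℕ, ∫ ω, ∏ k ∈ s, sg ω k ∂ν = ∏ k ∈ s, -(pr k : ℝ) ^ (β - 1)) →
    ∃ c : ℝ, 0 < c ∧ ∀ T : ℝ, ∀ᶠ X : ℝ in atTop,
      c ≤ ∫ ω, (volume {x : ℝ | x ∈ Set.Icc X (2 * X) ∧
        T * √(X ^ θ) < Mf (fun n => mu n * cm ω n) x (X ^ θ)}).toReal / X ∂ν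

/-- Conditioning on an event of positive probability changes the information by a bounded factor.

Proof: `a = ν(E)`, `q`, `q'` the laws of the first `n` signs for `ν`, `ν' = ν[|E]`; `q'(s) ≤ q(s)/a`.
`D ν' n = ∑ q' log (2^n q') ≤ ∑ q' log (2^n q/a) = log (1/a) + ∑ q' log (2^n q) ≤ log (1/a) + ∑ q' (log (2^n q))⁺
≤ log (1/a) + (1/a) ∑ q (log (2^n q))⁺`, and `∑ q (log (2^n q))⁺ = D ν n + ∑ q (log (2^n q))⁻ ≤ D ν n + 1`
(`x log x ≥ -1/e` for `x = 2^n q(s)`, average over `s`). -/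
def S_COND : Prop :=
  ∀ (ν : Measure (ℕ → Bool)) [IsProbabilityMeasure ν] (E : Set (ℕ → Bool)), MeasurableSet E → ν E ≠ 0 →
    IsProbabilityMeasure (ProbabilityTheory.cond ν E) ∧ ∃ C : ℝ, ∀ n, D (ProbabilityTheory.cond ν E) n ≤ C * (D ν n + 1)

/-- For every `δ > 0` there is a law with `D(x) ≤ C x^δ` for which the Gaussian law fails almost surely.

Proof.  `δ < 1`, `β = (1+δ)/2`, `ν` from `S_LAWE` (`Pool.Agent.Q96.EP.Lawe`) with `d_k = -p_k^(β-1)`: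
`D ν π(x) ≤ ∑_{p ≤ x} p^(2β-2) ≤ C x^δ`.  `θ = 1 - δ/2 > 2 - 2β`, `c` from `S_PZ`, `H(X) = X^θ`; `T > 0` with
`1 - Φ(T) < c/4`, `T' = T/√ζ(2)`; let `F_j(ω)` be the inner measure of `S_PZ` divided by `X` at `X = j` with `T'` in
place of `T`, `0 ≤ F_j ≤ 1`, and `E = {ω | c/2 ≤ limsup_j F_j(ω)}` (measurable).  Reverse Fatou:
`∫ limsup F_j ≥ limsup ∫ F_j ≥ c`, so `ν(E) ≥ c/2 > 0`.  On `E` the law fails: otherwise `F_j(ω) → 1 - Φ(T) < c/4`
(`X ^ θ < H...`: the condition `X^ε < X^θ < X^(1-ε)` holds with `ε < min(θ, δ/2)`).  Take `ν[|E]`, `S_COND`.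
(`D ν n + 1 ≤ C x^δ` for `x ≥ 1`.) -/
def S_GLF : Prop :=
  ∀ δ : ℝ, 0 < δ → δ < 1 → ∃ ν : Measure (ℕ → Bool), IsProbabilityMeasure ν ∧
    (∃ C : ℝ, ∀ x : ℕ, 1 ≤ x → D ν (Nat.primeCounting x) ≤ C * (x : ℝ) ^ δ) ∧
    ∀ᵐ ω ∂ν, ¬ GaussianLaw fun n => mu n * cm ω n

end Pool.Agent.Q255.L2
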