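import Pool.Agent.Q255.L2.StmG

/-!
# The sup norm of random twists of Maass expansions: statements
-/

set_option autoImplicit false

namespace Pool.Agent.Q255.L2

open Filter Topology MeasureTheory Finset
open Pool.Agent.Q255.IC Pool.Agent.Q255.IR Pool.Agent.Q255.EP
open scoped ENNReal

/-! ## The Bessel function `K_{iT}` -/

/-- `K_{iT}(u) = ∫_0^∞ exp (-u cosh t) cos (T t) dt` -/
noncomputable def KB (T u : ℝ) : ℝ := ∫ t in Set.Ioi (0 : ℝ), Real.exp (-(u * Real.cosh t)) * Real.cos (T * t)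

/-- its derivative `-∫_0^∞ cosh t exp (-u cosh t) cos (T t) dt` -/
noncomputable def KB1 (T u : ℝ) : ℝ :=
  -∫ t in Set.Ioi (0 : ℝ), Real.cosh t * (Real.exp (-(u * Real.cosh t)) * Real.cos (T * t))

/-- its second derivative `∫_0^∞ cosh² t exp (-u cosh t) cos (T t) dt` -/
noncomputable def KB2 (T u : ℝ) : ℝ :=
  ∫ t in Set.Ioi (0 : ℝ), Real.cosh t ^ 2 * (Real.exp (-(u * Real.cosh t)) * Real.cos (T * t))

/-- The differential equation and the decay.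

Proof: differentiation under the integral (`hasDerivAt_integral_of_dominated_loc_of_deriv_le`; dominate by
`cosh² t exp (-(u/2) cosh t)`).  With `g(t) = exp (-u cosh t)`: `g'' = (u² sinh² t - u cosh t) g`, so
`u² KB2 + u KB1 - u² KB = ∫ (u² cosh² t - u cosh t - u²) g cos (T t) = ∫ g'' cos (T t) = -T² ∫ g cos (T t)` (integrate by parts
twice, `g'(0) = 0`, `sin 0 = 0`).  Decay: `cosh t ≥ 1 + t²/2`, and `cosh t exp (-u (cosh t - 1)) ≤ cosh t exp (1 - cosh t)` for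
`u ≥ 1`, which is integrable. -/
def S_KODE : Prop :=
  (∀ T u : ℝ, 0 < u → HasDerivAt (KB T) (KB1 T u) u ∧ HasDerivAt (KB1 T) (KB2 T u) u ∧
    u ^ 2 * KB2 T u + u * KB1 T u = (u ^ 2 - T ^ 2) * KB T u) ∧
  (∀ T u : ℝ, 0 < u → |KB T u| ≤ √(Real.pi / (2 * u)) * Real.exp (-u)) ∧
  ∃ C : ℝ, 0 ≤ C ∧ ∀ T u : ℝ, 1 ≤ u → |KB1 T u| ≤ C * Real.exp (-u)

/-- The total energy: `∫_0^∞ 2 u K_{iT}(u)² du = π T / sinh (π T)`.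

Proof: Tonelli/Fubini (`∫ ∫ ∫ u exp (-u (cosh a + cosh b)) < ∞`): `∫_0^∞ u K² du = ∫∫_{a,b > 0} cos (Ta) cos (Tb)/(cosh a + cosh b)²
= (1/4) ∫∫_{ℝ²} exp (iT(a+b))/(cosh a + cosh b)²`; `a = p + q`, `b = p - q`, `da db = 2 dp dq`, `cosh a + cosh b = 2 cosh p cosh q`:
`= (1/8) (∫ exp (2iTp)/cosh² p dp) (∫ dq/cosh² q)`, the last integral is `2`, and with `v = exp (2p)`:
`∫ exp (2iTp)/cosh² p dp = 2 ∫_0^∞ v^(iT)/(1+v)² dv = 2 B(1+iT, 1-iT) = 2 Γ(1+iT) Γ(1-iT) = 2πT/sinh (πT)`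
(`Complex.betaIntegral`, `v = x/(1-x)`; `Complex.Gamma_mul_Gamma_one_sub`, `Γ(1+iT) = iT Γ(iT)`). -/
def S_KINT : Prop :=
  ∀ T : ℝ, 0 < T → IntegrableOn (fun u => u * KB T u ^ 2) (Set.Ioi 0) ∧
    ∫ u in Set.Ioi (0 : ℝ), 2 * (u * KB T u ^ 2) = Real.pi * T / Real.sinh (Real.pi * T)

/-- Uniform bounds.

Proof.  `E(u) = u² KB1² + (T²-u²) KB²`; by `S_KODE`, `E' = -2 u KB²` and `E(u) → 0` as `u → ∞`, so
`E(u) = ∫_u^∞ 2 v KB(v)² dv ∈ [0, E₀]`, `E₀ = πT/sinh (πT) ≤ C T exp (-πT)` (`S_KINT`).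
(1) `u < T`: `(T²-u²) KB² ≤ E₀`, so `exp (πT) KB² ≤ C/(T-u)`.  (2) `u ≤ T`: `u² KB1² ≤ E₀`.
(3) `u ≥ T`: `(u KB KB1)' = u KB1² + (u²-T²) KB²/u ≥ 0` and `u KB KB1 → 0`, so `KB KB1 ≤ 0` and `KB²` is decreasing on `[T, ∞)`.
(4) `u > T`: `0 ≤ E(T) - ∫_T^u 2 v KB² ` gives `(u²-T²) KB(u)² ≤ ∫_T^u 2 v KB² ≤ E₀`, so `exp (πT) KB(u)² ≤ C/(u-T)`.
(5) `|KB(T)| ≤ |KB(T/2)| + (T/2) sup_{[T/2,T]} |KB1|`; for `T ≥ 2` use `T - 1` instead of `T/2`: `|KB(T)| ≤ |KB(T-1)| + √E₀/(T-1)`, so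
`exp (πT) KB(T)² ≤ C`, similarly `exp (πT) KB(u)² ≤ C` for `T - 1 ≤ u ≤ T`.  With (3): `exp (πT) KB² ≤ C` for all `u` with
`|u - T| ≤ 1`.  Together the first bound.
(6) `u > T`: `u² KB1² = E + (u²-T²) KB² ≤ 2 E₀`.  So `exp (πT) (u KB1)² ≤ C T` for all `u > 0`, and the second bound
follows by integrating `KB1` (`u KB1` is the derivative in `log u`). -/
def S_KBB : Prop :=
  ∃ C : ℝ, 0 ≤ C ∧ ∀ T : ℝ, 1 ≤ T →
    (∀ u : ℝ, 0 < u → Real.exp (Real.pi * T) * KB T u ^ 2 ≤ C / (1 + |T - u|)) ∧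
    ∀ u u' : ℝ, 0 < u → 0 < u' →
      Real.exp (Real.pi * T / 2) * |KB T u - KB T u'| ≤ C * √T * |Real.log u - Real.log u'|

/-! ## The norm -/

/-- The norm of weights with a singularity of order `1/2`.

Proof.  Classes `Δ_j = {n ≤ 2^J | 2^j ≤ 1 + |T - 2πny| < 2^(j+1)}`; as `T ≤ 2^J`, `y ≤ y₁`, only `C (J+1)` of them are nonempty.
`Δ_j` is contained in two intervals of length `l = 2^(j+1)/(2πy)`, so it has at most `C 2^j` elements, and for every `s` at most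
`2 (√(l/s) + 1)` numbers `r` have `r² s ∈ Δ_j`; this is nonzero for at most `C 2^j` numbers `s`.  So
`∑_s (∑_{r : r² s ∈ Δ_j} L 2^(-j/2))² ≤ L² 2^(-j) · 8 (l ∑_{s ≤ 2^J} 1/s + C 2^j) ≤ C L² (J+1)`.  Cauchy-Schwarz over the classes. -/
def S_KN : Prop :=
  ∀ y₀ y₁ : ℝ, 0 < y₀ → y₀ ≤ y₁ → ∃ C : ℝ, 0 ≤ C ∧ ∀ (T y L : ℝ) (J : ℕ) (w : ℕ → ℝ), 1 ≤ T → T ≤ 2 ^ J →
    y₀ ≤ y → y ≤ y₁ → 0 ≤ L → (∀ n, |w n| ≤ L / √(1 + |T - 2 * Real.pi * n * y|)) → (∀ n, 2 ^ J < n → w n = 0) →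
      nn (2 ^ J) w ≤ C * L ^ 2 * ((J : ℝ) + 1) ^ 3

/-! ## The sup norm -/

/-- The twist by `f` of the even Maass expansion with coefficients `a` (times `exp (πT/2)`):
`exp (πT/2) √y ∑_{n ≥ 1} a(n) f(n) K_{iT}(2πny) cos (2πnx)`. -/
noncomputable def phc (f : ℕ → ℝ) (T : ℝ) (a : ℕ → ℝ) (x y : ℝ) : ℝ :=
  Real.exp (Real.pi * T / 2) * √y * ∑' n : ℕ, a (n + 1) * f (n + 1) * KB T (2 * Real.pi * (n + 1) * y) *
    Real.cos (2 * Real.pi * (n + 1) * x)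

/-- The odd expansion. -/
noncomputable def phs (f : ℕ → ℝ) (T : ℝ) (a : ℕ → ℝ) (x y : ℝ) : ℝ :=
  Real.exp (Real.pi * T / 2) * √y * ∑' n : ℕ, a (n + 1) * f (n + 1) * KB T (2 * Real.pi * (n + 1) * y) *
    Real.sin (2 * Real.pi * (n + 1) * x)

/-- The sup norm of the twists is `O(T^ε)` on compact sets, for all members of a family of polynomial size, almost
surely, for all laws of information `x^o(1)`.

Proof.  Fix `0 < y₀ ≤ y₁` (`y₀ = 1/m`, `y₁ = m` suffice).  For a member `i` with `2^(J-1) < T_i² ≤ 2^J` (`J = 0` if `T_i = 1`) and net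
points `x = p/16^J`, `0 ≤ p ≤ 16^J`, `y = y₀ + (y₁-y₀) q/16^J`, `0 ≤ q ≤ 16^J`, take the functions
`w(n) = exp (πT/2) √y a_i(n) KB T_i (2πny) cos (2πnx)` (and with `sin`) for `1 ≤ n ≤ 2^J`, `0` otherwise: `W_J` has at most
`exp (A' (J+1))` elements.  `S_KBB` and `|a_i(n)| ≤ C (n T_i)^ε`: `|w(n)| ≤ L/√(1+|T-2πny|)` with `L = C 2^(2εJ)`; `S_KN`:
`nn ≤ C 2^(4εJ) (J+1)^3`, and `S_ENG2` with `δ = 0`: `|∑_{n ≤ 2^J} w(n) f(n)| ≤ C 2^(4εJ) ≤ C' T_i^(8ε+…)` (`2^J ≤ 2 T_i²`).  Other `x, y` (`x` modulo `1`):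
the nearest net point changes every `w(n)` by at most `C 2^(2εJ) 2^(2J) 16^(-J)` (second bound of `S_KBB`), the sum by at most `C`.
Tail: `∑_{n > 2^J} exp (πT/2) √y |a| |KB| ≤ C ∑_{n > T²} (nT)^ε exp (πT/2 - 2πny₀) ≤ C` (second bound of `S_KODE`).  All `ε = 1/(j+1)`. -/
def S_SN : Prop :=
  ∀ (ν : Measure (ℕ → Bool)) [IsProbabilityMeasure ν],
    (∀ ε : ℝ, 0 < ε → ∀ᶠ x : ℕ in atTop, D ν (Nat.primeCounting x) ≤ (x : ℝ) ^ ε) →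
    ∀ (ι : Type) (T : ι → ℝ) (a : ι → ℕ → ℝ) (A : ℝ), (∀ i, 1 ≤ T i) →
      (∀ X : ℝ, 1 ≤ X → {i | T i ≤ X}.Finite ∧ ({i | T i ≤ X}.ncard : ℝ) ≤ A * X ^ A) →
      (∀ ε : ℝ, 0 < ε → ∃ C : ℝ, ∀ (i : ι) (n : ℕ), 1 ≤ n → |a i n| ≤ C * (n * T i) ^ ε) →
      ∀ᵐ ω ∂ν, ∀ y₀ y₁ : ℝ, 0 < y₀ → y₀ ≤ y₁ → ∀ ε : ℝ, 0 < ε → ∃ C : ℝ, ∀ (i : ι) (x y : ℝ),
        y₀ ≤ y → y ≤ y₁ → |phc (cm ω) (T i) (a i) x y| ≤ C * T i ^ ε ∧ |phs (cm ω) (T i) (a i) x y| ≤ C * T i ^ ε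

end Pool.Agent.Q255.L2
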