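import Pool.Agent.Q255.L2.StmN

/-!
# The Lindelöf bound for the random twists of all automorphic L-functions: statements
-/

set_option autoImplicit false

namespace Pool.Agent.Q255.L2

open Filter Topology MeasureTheory Finset
open Pool.Agent.Q255.IC Pool.Agent.Q255.IR Pool.Agent.Q255.EP
open scoped ENNReal

/-- The norm of the weights `a(n)/√n`.

Proof.  Dyadic classes `r ~ R`, `s ~ S`, `R² S ≤ X`: `∑_{s} (∑_{r ~ R} |a(r² s)|/(r √s))² ≤ (1/(R² S)) R ∑_{s ~ S} ∑_{r ~ R} a(r² s)² ≤ 4 B`, and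
Cauchy-Schwarz over the at most `C (1 + log X)²` classes. -/
def S_LN : Prop :=
  ∀ ε : ℝ, 0 < ε → ∃ C : ℝ, 0 ≤ C ∧ ∀ (X : ℕ) (B : ℝ) (a w : ℕ → ℝ), 1 ≤ X → 0 ≤ B →
    (∀ R S : ℕ, 1 ≤ R → 1 ≤ S → R ^ 2 * S ≤ 8 * X →
      ∑ s ∈ (Icc 1 S).filter Squarefree, ∑ r ∈ Icc 1 R, a (r ^ 2 * s) ^ 2 ≤ B * (R * S)) →
    (∀ n, |w n| ≤ |a n| / √(n : ℝ)) → (∀ n, X < n → w n = 0) → nn X w ≤ C * (X : ℝ) ^ ε * B

/-- The Lindelöf bound for the twisted Dirichlet series of all members of a family, almost surely (given `S_ENG2`, `S_LN`).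

Proof.  `2^J ≥ N, T_i, |t| + 1` with `2^J ≤ 2 N T_i (1 + |t|)`.  `S_ENG2` with `δ = 0` for the weights `a_i(n) n^(-1/2) cos (t log n)` and with
`sin`, `n ≤ N`, `T_i ≤ 2^J`, `t` in the net `2^(-8J) ℤ ∩ [-2^J, 2^J]`; `S_LN` with `B = C 2^(εJ)` gives `|∑| ≤ C 2^(ε' J)`.  Other `t`: the derivative of
the sum in `t` is at most `∑ |a_i(n)| log n ≤ C 2^(3J)` (`a_i(n)² ≤ C (n T_i)^ε n` by the hypothesis for `S = s`, `R = r`, `n = r² s`). -/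
def S_LA : Prop :=
  ∀ (ν : Measure (ℕ → Bool)) [IsProbabilityMeasure ν], Sml ν →
    ∀ (ι : Type) (T : ι → ℝ) (a : ι → ℕ → ℝ) (A : ℝ), Fam T A →
      (∀ ε : ℝ, 0 < ε → ∃ C : ℝ, ∀ (i : ι) (R S : ℕ), 1 ≤ R → 1 ≤ S →
        ∑ s ∈ (Icc 1 S).filter Squarefree, ∑ r ∈ Icc 1 R, a i (r ^ 2 * s) ^ 2 ≤
          C * ((R : ℝ) * S * T i) ^ ε * (R * S)) →
      ∀ᵐ ω ∂ν, ∀ ε : ℝ, 0 < ε → ∃ C : ℝ, ∀ (i : ι) (N : ℕ) (t : ℝ), 1 ≤ N →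
        ‖∑ n ∈ Icc 1 N, ((a i n * cm ω n : ℝ) : ℂ) * (n : ℂ) ^ (-(1 / 2 : ℂ) - t * Complex.I)‖ ≤
          C * ((N : ℝ) * T i * (1 + |t|)) ^ ε

/-- For every `δ` in `(0,1)` there is a law with `D(x) ≤ C x^δ` for which the sums are larger on average.

Proof.  The law of `S_VMC` (`Pool.Agent.Q124.L2.vmc`): `β = (1+δ)/2`, `E cm(n) ≥ n^(β-1)` (`Pool.Agent.Q124.L2.mean_ge`), so the expectation
is at least `∑_{n ≤ N} n^(β-3/2) ≥ N · N^(β-3/2) = N^(δ/2)`. -/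
def S_LB : Prop :=
  ∀ δ : ℝ, 0 < δ → δ < 1 → ∃ ν : Measure (ℕ → Bool), IsProbabilityMeasure ν ∧
    (∃ C : ℝ, ∀ x : ℕ, 1 ≤ x → D ν (Nat.primeCounting x) ≤ C * (x : ℝ) ^ δ) ∧
    ∀ N : ℕ, 1 ≤ N → (N : ℝ) ^ (δ / 2) ≤ ∫ ω, ∑ n ∈ Icc 1 N, cm ω n / √(n : ℝ) ∂ν

end Pool.Agent.Q255.L2
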