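import Pool.Agent.Q255.L2.Alm

/-!
# Moments of random and quadratic Dirichlet polynomials on the critical line, all intervals: statements

Notation of the proofs: `M = m_1 ⋯ m_k`, `M' = m'_1 ⋯ m'_k`, all `m_j, m'_j ≤ N`, `Q = N^k`.
-/

set_option autoImplicit false

namespace Pool.Agent.Q255.L2

open Filter Topology MeasureTheory Finset
open Pool.Agent.Q255.IC Pool.Agent.Q255.IR Pool.Agent.Q255.EP
open scoped ENNReal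

/-- `∑_{n ≤ N} f(n) n^(-1/2-it)` -/
noncomputable def ZN (f : ℕ → ℝ) (N : ℕ) (t : ℝ) : ℂ :=
  ∑ n ∈ Icc 1 N, (f n : ℂ) * (n : ℂ) ^ (-(1 / 2 : ℂ) - t * Complex.I)

open Classical in
/-- the number of the `k`-tuples of numbers in `[1, N]` with the product `n` -/
def dN (k N n : ℕ) : ℕ := ((Fintype.piFinset fun _ : Fin k => Icc 1 N).filter fun a => ∏ j, a j = n).card

/-- the diagonal term `∑_n d_{k,N}(n)²/n` -/
noncomputable def dia (k N : ℕ) : ℝ := ∑ n ∈ Icc 1 (N ^ k), (dN k N n : ℝ) ^ 2 / n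

/-- the integrals of `|Z_N|^(2k)` over all intervals are given by the diagonal term -/
def MM (k : ℕ) (ε C : ℝ) (J : ℕ) (f : ℕ → ℝ) : Prop :=
  ∀ (N : ℕ) (T₁ T₂ : ℝ), 1 ≤ N → N ≤ 2 ^ J → -(2 : ℝ) ^ J ≤ T₁ → T₁ ≤ T₂ → T₂ ≤ 2 ^ J →
    |(∫ t in T₁..T₂, ‖ZN f N t‖ ^ (2 * k)) - (T₂ - T₁) * dia k N| ≤ C * (2 : ℝ) ^ (ε * J) * √(1 + (T₂ - T₁))

/-! ## The norm -/

open Classical in
/-- Pairs of numbers whose quotient is close to `1`.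

Proof.  `u = g s₁ a²`, `v = g s₂ b²` with `s₁ s₂ = s` squarefree, `s₁, s₂` coprime, `g` squarefree and prime to `s`, if `u v = r² s`
(`g` the greatest common divisor of the squarefree parts), and `√(uv) = g a b √s`.  The sum over `g` gives a factor `C log Q`, the
number of the `(s₁, s₂)` for a given `s` is at most `C Q^ε'` (`Pool.Agent.H358R2.div_bound`), and pairs `(a, b) = h (a', b')` give the factor
`∑ h^(-2)`.  So `nn ≤ C Q^ε'' ∑_{(s₁,s₂) ≠ (1,1)} (1/(s₁ s₂)) F²`, `F = ∑_{(a,b) = 1} m/(ab)`, `m = min H (1/|log (s₁a²/(s₂b²))|)`, `s₁ a², s₂ b² ≤ Q`.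
The part `|log| ≥ 1` of `F` is at most `C (log Q)²`.  The rest is split into `C (log Q)^5 (1 + log H)` classes, `a ~ A`, `b ~ B`, `s_i ~ S_i`, `s₁a² ~ Y`, so
`S₁S₂ ~ Y²/P²`, `P = A B`, and `|log| ~ δ` with `1/H ≤ δ ≤ 1` (`m ≤ 1/δ`; for the lowest class `δ = 1/H`, `|log| ≤ 1/H`, `m ≤ H`); if `H > Q` the
classes with `δ < 1/(2Q)` are empty, since `s₁a² ≠ s₂b²`.
Let `n(s₁,s₂)` be the number of the `(a,b)`.  (i) `n ≤ 1 + C δ P`: the fractions `a/b` have distances at least `1/(4B²)` and lie in an interval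
of length `C δ A/B`.  (ii) `∑_{s₁,s₂} n ≤ C δ Y P (Y/P² + 1)`: for given `a, b` and `h = s₁a² - s₂b²`, `0 < |h| ≤ C δ Y`, `s₁` is determined modulo
`b²`, `s₁ ≤ 2 S₁`, `S₁/B² ≤ C Y/P²`.  The contribution of the class is at most `(C/(S₁S₂)) (δ P)^(-2) ∑ n²`.  If `δP ≥ 1`, (i) gives `C`.  If `δP < 1`,
`n² ≤ C n` and (ii) give `C Y^(-2) δ^(-2) (δ Y²/P + δ P Y) = C (1/(δP) + P/(δY)) ≤ C H` (`P ≤ C Y`). -/
def S_MN : Prop :=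
  ∀ ε : ℝ, 0 < ε → ∃ C : ℝ, 0 ≤ C ∧ ∀ (Q X : ℕ) (H : ℝ) (w : ℕ → ℝ), 1 ≤ Q → 1 ≤ H →
    (∀ l, |w l| ≤ if IsSquare l then 0 else ∑ p ∈ (Icc 1 Q ×ˢ Icc 1 Q).filter (fun p => p.1 * p.2 = l),
      min H (1 / |Real.log ((p.1 : ℝ) / p.2)|) / √((p.1 : ℝ) * p.2)) →
        nn X w ≤ C * ((Q : ℝ) * H) ^ ε * H

/-! ## The expansion -/

open Classical in
/-- the coefficient of `f(l)` in the moment -/
noncomputable def wm (k N : ℕ) (T₁ T₂ : ℝ) (l : ℕ) : ℝ :=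
  if IsSquare l then 0 else ∑ p ∈ (Icc 1 (N ^ k) ×ˢ Icc 1 (N ^ k)).filter (fun p => p.1 * p.2 = l),
    (dN k N p.1 : ℝ) * dN k N p.2 / √((p.1 : ℝ) * p.2) * ∫ t in T₁..T₂, Real.cos (t * Real.log ((p.1 : ℝ) / p.2))

/-- The moment is the diagonal term plus a linear form in the values of `f`.

Proof.  `‖Z_N‖^(2k) = ∑_{M, M' ≤ Q} dN(M) dN(M') f(M) f(M') (M M')^(-1/2) (M'/M)^(it)` (`f` multiplicative on products of numbers `≤ N`), and the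
real part of `(M'/M)^(it)` is `cos (t log (M/M'))`.  The terms with `M = M'` give `(T₂ - T₁) dia`; `f(MM') = 1` if `M M'` is a square, and the
terms with `M ≠ M'`, `M = g a²`, `M' = g b²`, are at most `C Q^ε' ∑_g 1/g ∑_{b < a ≤ √Q} 1/(a b log (a/b)) ≤ C Q^ε`, since
`1/log (a/b) ≤ a/(a-b)` and `∑_{b<a} 1/(b (a-b)) = (1/a) ∑ (1/b + 1/(a-b))`.  The rest is `∑ wm(l) f(l)`, `f(l) = f(M) f(M')` for the
`l = M M'` (all prime factors at most `N`). -/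
def S_ME : Prop :=
  ∀ (k : ℕ) (ε : ℝ), 1 ≤ k → 0 < ε → ∃ C : ℝ, 0 ≤ C ∧ ∀ (N : ℕ) (T₁ T₂ : ℝ) (f : ℕ → ℝ), 1 ≤ N → T₁ ≤ T₂ →
    (∀ m n, (∀ p : ℕ, p.Prime → p ∣ m * n → p ≤ N) → 1 ≤ m → 1 ≤ n → f (m * n) = f m * f n) →
    (∀ n, (∀ p : ℕ, p.Prime → p ∣ n → p ≤ N) → 1 ≤ n → f n = 1 ∨ f n = -1) →
      |(∫ t in T₁..T₂, ‖ZN f N t‖ ^ (2 * k)) - ((T₂ - T₁) * dia k N + ∑ l ∈ Icc 1 (N ^ (2 * k)), wm k N T₁ T₂ l * f l)| ≤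
        C * (N : ℝ) ^ ε

/-- The coefficients are small in norm and depend nicely on the interval (given `S_MN`).

Proof.  `dN k N M ≤ (number of divisors of M)^(k-1) ≤ C M^ε'` (`Pool.Agent.H358R2.div_bound`), `|∫ cos (t λ)| ≤ min (T₂-T₁) (2/|λ|)`; `S_MN`
with `H = 1 + (T₂ - T₁)`.  Second part: the integral changes by at most `|T₁ - T₁'| + |T₂ - T₂'|`, the number of the pairs with a given
product and all factors are at most `(N^k)^2`. -/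
def S_MW : Prop :=
  ∀ (k : ℕ) (ε : ℝ), 1 ≤ k → 0 < ε → ∃ C : ℝ, 0 ≤ C ∧ ∀ (N : ℕ) (T₁ T₂ : ℝ), 1 ≤ N → T₁ ≤ T₂ →
    (∀ X, nn X (wm k N T₁ T₂) ≤ C * ((N : ℝ) * (1 + (T₂ - T₁))) ^ ε * (1 + (T₂ - T₁))) ∧
    (∀ l, N ^ (2 * k) < l → wm k N T₁ T₂ l = 0) ∧
    ∀ (T₁' T₂' : ℝ) (l : ℕ), T₁' ≤ T₂' →
      |wm k N T₁ T₂ l - wm k N T₁' T₂' l| ≤ C * (N : ℝ) ^ (8 * k) * (|T₁ - T₁'| + |T₂ - T₂'|)

/-! ## The theorems -/

/-- All moments over all intervals, almost surely, for all laws of information `x^o(1)` (given `S_ENG2`, `S_ME`, `S_MW`).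

Proof.  `S_ENG2` with `δ = 0` at the scale `2 k J` for the functions `wm k N T₁ T₂`, `N ≤ 2^J`, `T₁`, `T₂` multiples of `2^(-L J)` in
`[-2^J, 2^J]`, `L = 12 k + 2`: `|∑ wm f| ≤ C 2^(ε' 2 k J) √(C 2^(2ε'J) (1 + (T₂-T₁)))`; other `T₁, T₂`: second bound of `S_MW` (the sum has at most
`2^(2kJ)` terms).  `cm ω` is completely multiplicative with values `1`, `-1`. -/
def S_MA : Prop :=
  ∀ (ν : Measure (ℕ → Bool)) [IsProbabilityMeasure ν], Sml ν →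
    ∀ᵐ ω ∂ν, ∀ (k : ℕ) (ε : ℝ), 1 ≤ k → 0 < ε → ∃ C : ℝ, ∀ J, MM k ε C J (cm ω)

/-- The same for almost all quadratic symbols (given `S_QE`, `S_ME`, `S_MW`).

Proof: as `S_MA`, `S_QE` and `Alm.scale` (scale `2 k J`); for `m` with `Rgh J m` the symbols `(n / m)` satisfy the conditions of `S_ME`. -/
def S_MQ : Prop :=
  ∀ (k : ℕ) (ε : ℝ), 1 ≤ k → 0 < ε → ∃ C : ℝ, Alm fun J m => Rgh J m → MM k ε C J (jc m)

/-- For every `δ` in `(0,1)` there is a law with `D(x) ≤ C x^δ` for which the moments are larger on average.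

Proof.  The law of `S_VMC` (`Pool.Agent.Q124.L2.vmc`): `β = (1+δ)/2`, `E cm(n) ≥ n^(β-1) ≥ 0` (`Pool.Agent.Q124.L2.mean_ge`).
`2 ∫_{-1}^1 ‖Z_N‖² dt ≥ 2 ∫_{-1}^1 (1 - |t|) ‖Z_N‖² dt = 2 ∑_{m,n ≤ N} cm(m n) (mn)^(-1/2) K(log (m/n))`, `K(x) = ∫_{-1}^1 (1-|t|) cos (t x) dt =
2 (1 - cos x)/x² ≥ 0` (`1` for `x = 0`), and `K(x) ≥ 1/2` for `|x| ≤ 1`.  Expectation: at least `c ∑_{N/2 ≤ m, n ≤ N} (mn)^(β-3/2) ≥ c N^(2β-1) = c N^δ`.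
Hölder: `∫_{-1}^1 ‖Z‖^(2k) ≥ 2 ((1/2) ∫ ‖Z‖²)^k`, and Jensen for the expectation. -/
def S_MBL : Prop :=
  ∀ δ : ℝ, 0 < δ → δ < 1 → ∃ ν : Measure (ℕ → Bool), IsProbabilityMeasure ν ∧
    (∃ C : ℝ, ∀ x : ℕ, 1 ≤ x → D ν (Nat.primeCounting x) ≤ C * (x : ℝ) ^ δ) ∧
    ∀ k : ℕ, 1 ≤ k → ∃ c : ℝ, 0 < c ∧ ∀ N : ℕ, 1 ≤ N →
      c * (N : ℝ) ^ (k * δ) ≤ ∫ ω, (∫ t in (-1 : ℝ)..1, ‖ZN (cm ω) N t‖ ^ (2 * k)) ∂ν

end Pool.Agent.Q255.L2
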